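import Mathlib

/-!
# The singular inner function `exp ((z + 1) / (z - 1))` on the circle: Fourier coefficients
-/

set_option autoImplicit false
open MeasureTheory Filter Topology Complex
open scoped InnerProductSpace ENNReal ComplexConjugate

namespace Pool.Agent.Y267.TF

/-- the singular inner function -/
noncomputable def F (z : ℂ) : ℂ := exp ((z + 1) / (z - 1))

lemma re_le {z : ℂ} (hz : ‖z‖ ≤ 1) : ((z + 1) / (z - 1)).re ≤ 0 := by
  rw [Complex.div_re]
  have h1 : normSq z ≤ 1 := by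
    rw [Complex.normSq_eq_norm_sq]
    nlinarith [norm_nonneg z]
  rw [← add_div]
  apply div_nonpos_of_nonpos_of_nonneg _ (normSq_nonneg _)
  simp only [add_re, one_re, sub_re, add_im, one_im, sub_im, add_zero, sub_zero]
  rw [Complex.normSq_apply] at h1
  nlinarith

lemma re_eq {z : ℂ} (hz : ‖z‖ = 1) : ((z + 1) / (z - 1)).re = 0 := by
  rw [Complex.div_re]
  have h1 : normSq z = 1 := by
    rw [Complex.normSq_eq_norm_sq, hz]; norm_num
  rw [← add_div]
  simp only [add_re, one_re, sub_re, add_im, one_im, sub_im, add_zero, sub_zero]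
  rw [Complex.normSq_apply] at h1
  have : (z.re + 1) * (z.re - 1) + z.im * z.im = 0 := by nlinarith
  rw [this, zero_div]

lemma norm_F_le {z : ℂ} (hz : ‖z‖ ≤ 1) : ‖F z‖ ≤ 1 := by
  unfold F
  rw [Complex.norm_exp]
  exact Real.exp_le_one_iff.2 (re_le hz)

lemma norm_F_eq {z : ℂ} (hz : ‖z‖ = 1) : ‖F z‖ = 1 := by
  unfold F
  rw [Complex.norm_exp, re_eq hz, Real.exp_zero]

lemma F_conj (z : ℂ) : F (conj z) = conj (F z) := by
  unfold F
  rw [← Complex.exp_conj]
  congr 1
  simp

lemma F_diff {z : ℂ} (hz : z ≠ 1) : DifferentiableAt ℂ F z := by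
  unfold F
  apply DifferentiableAt.cexp
  apply DifferentiableAt.div (by fun_prop) (by fun_prop)
  exact sub_ne_zero.2 hz

lemma ne_one_of_norm_lt {z : ℂ} (hz : ‖z‖ < 1) : z ≠ 1 := by
  rintro rfl
  simp at hz

lemma F_diffOn (r : ℝ) (hr : r < 1) : DifferentiableOn ℂ F (Metric.closedBall 0 r) := by
  intro z hz
  apply (F_diff _).differentiableWithinAt
  apply ne_one_of_norm_lt
  rw [mem_closedBall_zero_iff] at hz
  linarith

/-- the Taylor coefficients at the origin -/
noncomputable def c (n : ℕ) : ℂ := (2 * Real.pi * I : ℂ)⁻¹ * ∮ z in C(0, 1 / 2), z ^ (-(n : ℤ) - 1) * F z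

lemma coeff_cauchy (r : ℝ) (n : ℕ) :
    (cauchyPowerSeries F 0 r).coeff n = (2 * Real.pi * I : ℂ)⁻¹ * ∮ z in C(0, r), z ^ (-(n : ℤ) - 1) * F z := by
  rw [FormalMultilinearSeries.coeff]
  have h := cauchyPowerSeries_apply F 0 r n 1
  have e : (fun _ : Fin n => (1 : ℂ)) = 1 := rfl
  rw [e] at h
  rw [h, smul_eq_mul]
  congr 1
  apply congrArg (fun f => circleIntegral f 0 r)
  funext z
  simp only [sub_zero, smul_eq_mul]
  rw [one_div, ← mul_assoc, inv_pow]
  congr 1
  by_cases hz : z = 0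
  · subst hz
    rw [zero_zpow _ (by omega)]
    simp
  · rw [zpow_sub_one₀ hz, zpow_neg, zpow_natCast]

lemma hps (R : NNReal) (h0 : 0 < R) (h1 : (R : ℝ) < 1) :
    HasFPowerSeriesOnBall F (cauchyPowerSeries F 0 R) 0 R :=
  DifferentiableOn.hasFPowerSeriesOnBall (F_diffOn R h1) h0

lemma coeff_eq' (R : NNReal) (h0 : 0 < R) (h1 : (R : ℝ) < 1) (n : ℕ) :
    (2 * Real.pi * I : ℂ)⁻¹ * ∮ z in C(0, R), z ^ (-(n : ℤ) - 1) * F z = c n := by
  have h2 : (0 : NNReal) < 1 / 2 := by norm_num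
  have h3 := (hps R h0 h1).hasFPowerSeriesAt.eq_formalMultilinearSeries
    (hps (1/2) h2 (by norm_num)).hasFPowerSeriesAt
  have h4 := coeff_cauchy R n
  have h5 := coeff_cauchy ((1/2 : NNReal) : ℝ) n
  have h6 : c n = (2 * Real.pi * I : ℂ)⁻¹ * ∮ z in C(0, ((1/2 : NNReal) : ℝ)), z ^ (-(n : ℤ) - 1) * F z := by
    unfold c
    norm_num
  rw [h6, ← h4, ← h5]
  exact congrArg (fun p : FormalMultilinearSeries ℂ ℂ ℂ => p.coeff n) h3

lemma coeff_eq (r : ℝ) (hr0 : 0 < r) (hr : r < 1) (n : ℕ) :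
    (2 * Real.pi * I : ℂ)⁻¹ * ∮ z in C(0, r), z ^ (-(n : ℤ) - 1) * F z = c n :=
  coeff_eq' ⟨r, hr0.le⟩ hr0 hr n

lemma hasSum_F (r : ℝ) (hr0 : 0 ≤ r) (hr : r < 1) : HasSum (fun n : ℕ => c n * (r : ℂ) ^ n) (F r) := by
  obtain ⟨R, hR1, hR2⟩ := exists_between hr
  have hR0 : 0 < R := lt_of_le_of_lt hr0 hR1
  lift R to NNReal using hR0.le
  have h2 := (hps R (by exact_mod_cast hR0) hR2).hasSum_sub (y := (r : ℂ)) (by
    rw [Metric.mem_eball, edist_dist, dist_zero_right, Complex.norm_real, Real.norm_of_nonneg hr0]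
    rw [← ENNReal.ofReal_coe_nnreal]
    exact (ENNReal.ofReal_lt_ofReal_iff hR0).2 hR1)
  have e : (fun n : ℕ => c n * (r : ℂ) ^ n) = fun n => (cauchyPowerSeries F 0 R n) fun _ => (r : ℂ) - 0 := by
    funext n
    rw [FormalMultilinearSeries.apply_eq_pow_smul_coeff, coeff_cauchy,
      coeff_eq R hR0 hR2, sub_zero, smul_eq_mul, mul_comm]
  rw [e]
  exact h2

/-- one formula for all integral exponents -/
lemma circ_neg (r : ℝ) (hr0 : 0 < r) (hr : r < 1) (m : ℕ) :
    ∮ z in C(0, r), z ^ (m : ℤ) * F z = 0 := by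
  apply Complex.circleIntegral_eq_zero_of_differentiable_on_off_countable hr0.le Set.countable_empty
  · apply ContinuousOn.mul
    · simp only [zpow_natCast]; fun_prop
    · exact (F_diffOn r hr).continuousOn
  · intro z hz
    simp only [zpow_natCast]
    apply DifferentiableAt.mul (by fun_prop)
    apply F_diff
    apply ne_one_of_norm_lt
    have := hz.1
    rw [mem_ball_zero_iff] at this
    linarith

/-- the circle of length one -/
abbrev Ci := AddCircle (1 : ℝ)

/-- the symbol -/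
noncomputable def th (x : Ci) : ℂ := F (fourier 1 x)

/-- the symbol on a smaller circle -/
noncomputable def thr (r : ℝ) (x : Ci) : ℂ := F (r * fourier 1 x)

lemma fourier_thr (r : ℝ) (hr0 : 0 < r) (m : ℤ) :
    fourierCoeff (thr r) m = (r : ℂ) ^ m * ((2 * Real.pi * I : ℂ)⁻¹ * ∮ z in C(0, r), z ^ (-m - 1) * F z) := by
  rw [fourierCoeff_eq_intervalIntegral _ _ 0]
  have h1 : ∀ x : ℝ, ((fourier (-m) (x : Ci) : ℂ) • thr r (x : Ci)) =
      (fun φ : ℝ => exp (-(m * φ * I)) * F (r * exp (φ * I))) (2 * Real.pi * x) := by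
    intro x
    simp only [smul_eq_mul]
    unfold thr
    rw [fourier_coe_apply, fourier_coe_apply]
    congr 2
    · push_cast
      ring
    · congr 2
      push_cast
      ring
  rw [intervalIntegral.integral_congr (fun x _ => h1 x), intervalIntegral.integral_comp_mul_left
    (fun φ : ℝ => exp (-(m * φ * I)) * F (r * exp (φ * I))) (by positivity)]
  rw [circleIntegral]
  have h2 : ∀ φ : ℝ, deriv (circleMap 0 r) φ • (circleMap 0 r φ ^ (-m - 1) * F (circleMap 0 r φ)) =
      (I * (r : ℂ) ^ (-m)) * (exp (-(m * φ * I)) * F (r * exp (φ * I))) := by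
    intro φ
    have hc : circleMap 0 r φ = r * exp (φ * I) := by simp [circleMap]
    rw [deriv_circleMap, hc, smul_eq_mul]
    have hr1 : (r : ℂ) ≠ 0 := by exact_mod_cast hr0.ne'
    have hne : (r : ℂ) * exp (φ * I) ≠ 0 := mul_ne_zero hr1 (exp_ne_zero _)
    rw [zpow_sub_one₀ hne, mul_zpow, ← Complex.exp_int_mul]
    have : exp (((-m : ℤ) : ℂ) * (φ * I)) = exp (-(m * φ * I)) := by
      congr 1
      push_cast
      ring
    rw [this]
    field_simp
  rw [intervalIntegral.integral_congr (fun φ _ => h2 φ), intervalIntegral.integral_const_mul]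
  have hr1 : (r : ℂ) ≠ 0 := by exact_mod_cast hr0.ne'
  have hpi : (Real.pi : ℂ) ≠ 0 := by exact_mod_cast Real.pi_ne_zero
  have hz : (r : ℂ) ^ m * (r : ℂ) ^ (-m) = 1 := by
    rw [← zpow_add₀ hr1]; simp
  simp only [mul_zero, zero_add, mul_one, div_one, one_smul]
  rw [Complex.real_smul]
  push_cast
  calc (2 * (Real.pi : ℂ))⁻¹ * ∫ x : ℝ in (0 : ℝ)..2 * Real.pi, exp (-(m * x * I)) * F (r * exp (x * I))
      = ((r : ℂ) ^ m * (r : ℂ) ^ (-m)) * ((2 * (Real.pi : ℂ))⁻¹ *
        ∫ x : ℝ in (0 : ℝ)..2 * Real.pi, exp (-(m * x * I)) * F (r * exp (x * I))) := by rw [hz, one_mul]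
    _ = _ := by
        have hI : (2 * (Real.pi : ℂ) * I)⁻¹ * I = (2 * (Real.pi : ℂ))⁻¹ := by
          rw [mul_inv, mul_assoc, inv_mul_cancel₀ I_ne_zero, mul_one]
        rw [← hI]
        ring

lemma fourier_thr_nat (r : ℝ) (hr0 : 0 < r) (hr : r < 1) (n : ℕ) :
    fourierCoeff (thr r) (n : ℤ) = (r : ℂ) ^ n * c n := by
  rw [fourier_thr r hr0, coeff_eq r hr0 hr, zpow_natCast]

lemma fourier_thr_neg (r : ℝ) (hr0 : 0 < r) (hr : r < 1) (m : ℤ) (hm : m < 0) :
    fourierCoeff (thr r) m = 0 := by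
  obtain ⟨k, hk⟩ : ∃ k : ℕ, -m - 1 = (k : ℤ) := ⟨(-m - 1).toNat, by omega⟩
  rw [fourier_thr r hr0, hk, circ_neg r hr0 hr, mul_zero, mul_zero]

lemma norm_fourier (x : Ci) (m : ℤ) : ‖(fourier m x : ℂ)‖ = 1 := by
  rw [fourier_apply]
  exact Circle.norm_coe _

lemma thr_le (r : ℝ) (hr0 : 0 ≤ r) (hr : r < 1) (x : Ci) : ‖thr r x‖ ≤ 1 := by
  apply norm_F_le
  rw [norm_mul, norm_fourier, mul_one, Complex.norm_real, Real.norm_of_nonneg hr0]
  exact hr.le

lemma fourier_one_ne {x : ℝ} (h0 : 0 < x) (h1 : x < 1) : (fourier 1 (x : Ci) : ℂ) ≠ 1 := by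
  rw [fourier_coe_apply]
  intro h
  rw [Complex.exp_eq_one_iff] at h
  obtain ⟨n, hn⟩ := h
  have hpi : (2 * (Real.pi : ℂ) * I) ≠ 0 := by
    simp [Real.pi_ne_zero, I_ne_zero]
  have h2 : (x : ℂ) = n := by
    have : (2 * (Real.pi : ℂ) * I) * x = (2 * (Real.pi : ℂ) * I) * n := by
      push_cast at hn
      linear_combination hn
    exact mul_left_cancel₀ hpi this
  have h3 : x = n := by exact_mod_cast h2
  rw [h3] at h0 h1
  have h4 : 0 < n := by exact_mod_cast h0
  have h5 : n < 1 := by exact_mod_cast h1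
  omega

lemma measurable_F : Measurable F := by
  unfold F
  apply Complex.continuous_exp.measurable.comp
  fun_prop

lemma tendsto_coeff (m : ℤ) :
    Tendsto (fun k : ℕ => fourierCoeff (thr (1 - 1 / ((k : ℝ) + 2))) m) atTop (𝓝 (fourierCoeff th m)) := by
  simp_rw [fourierCoeff_eq_intervalIntegral _ _ 0]
  apply Tendsto.const_smul
  apply intervalIntegral.tendsto_integral_filter_of_dominated_convergence (fun _ => 1)
  · apply Eventually.of_forall
    intro k
    apply Measurable.aestronglyMeasurable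
    have : Measurable fun x : ℝ => thr (1 - 1 / ((k : ℝ) + 2)) (x : Ci) := by
      apply measurable_F.comp
      fun_prop
    have h2 : Measurable fun x : ℝ => (fourier (-m) (x : Ci) : ℂ) := by fun_prop
    exact h2.smul this
  · apply Eventually.of_forall
    intro k
    apply Eventually.of_forall
    intro x _
    rw [norm_smul, norm_fourier, one_mul]
    have h2 : 0 < 1 / ((k : ℝ) + 2) := by positivity
    have h3 : 1 / ((k : ℝ) + 2) ≤ 1 := by
      rw [div_le_one (by positivity)]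
      have : (0 : ℝ) ≤ k := k.cast_nonneg
      linarith
    apply thr_le _ (by linarith) (by linarith)
  · exact intervalIntegrable_const
  · have h1 : ∀ᵐ x : ℝ, x ≠ 1 := by
      simp [ae_iff]
    filter_upwards [h1] with x hx hxm
    rw [zero_add, Set.uIoc_of_le zero_le_one] at hxm
    apply Tendsto.const_smul
    unfold thr th
    have hne := fourier_one_ne hxm.1 (lt_of_le_of_ne hxm.2 hx)
    have hc : ContinuousAt F (fourier 1 (x : Ci)) := (F_diff hne).continuousAt
    have h2 : Tendsto (fun k : ℕ => ((1 - 1 / ((k : ℝ) + 2) : ℝ) : ℂ) * fourier 1 (x : Ci)) atTop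
        (𝓝 (((1 - 0 : ℝ) : ℂ) * fourier 1 (x : Ci))) := by
      apply Tendsto.mul_const
      apply (Complex.continuous_ofReal.tendsto _).comp
      apply tendsto_const_nhds.sub
      have := (tendsto_const_div_atTop_nhds_zero_nat (1 : ℝ)).comp (tendsto_add_atTop_nat 2)
      refine this.congr fun k => ?_
      simp
    rw [sub_zero, Complex.ofReal_one, one_mul] at h2
    exact hc.tendsto.comp h2

lemma fourier_th_neg (m : ℤ) (hm : m < 0) : fourierCoeff th m = 0 := by
  refine tendsto_nhds_unique (tendsto_coeff m) ?_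
  refine tendsto_const_nhds.congr fun k => ?_
  have h2 : 0 < 1 / ((k : ℝ) + 2) := by positivity
  have h3 : 1 / ((k : ℝ) + 2) < 1 := by
    rw [div_lt_one (by positivity)]
    have : (0 : ℝ) ≤ k := k.cast_nonneg
    linarith
  rw [fourier_thr_neg _ (by linarith) (by linarith) m hm]

lemma fourier_th_nat (n : ℕ) : fourierCoeff th (n : ℤ) = c n := by
  refine tendsto_nhds_unique (tendsto_coeff n) ?_
  have h1 : Tendsto (fun k : ℕ => ((1 - 1 / ((k : ℝ) + 2) : ℝ) : ℂ) ^ n * c n) atTop (𝓝 (((1 - 0 : ℝ) : ℂ) ^ n * c n)) := by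
    apply Tendsto.mul_const
    apply Tendsto.pow
    apply (Complex.continuous_ofReal.tendsto _).comp
    apply tendsto_const_nhds.sub
    have := (tendsto_const_div_atTop_nhds_zero_nat (1 : ℝ)).comp (tendsto_add_atTop_nat 2)
    refine this.congr fun k => ?_
    simp
  rw [sub_zero, Complex.ofReal_one, one_pow, one_mul] at h1
  refine h1.congr fun k => ?_
  have h2 : 0 < 1 / ((k : ℝ) + 2) := by positivity
  have h3 : 1 / ((k : ℝ) + 2) < 1 := by
    rw [div_lt_one (by positivity)]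
    have : (0 : ℝ) ≤ k := k.cast_nonneg
    linarith
  rw [fourier_thr_nat _ (by linarith) (by linarith) n]

lemma fourier_conj_th (m : ℤ) : conj (fourierCoeff th m) = fourierCoeff th m := by
  unfold fourierCoeff
  rw [← integral_conj, ← integral_neg_eq_self]
  apply integral_congr_ae
  apply Eventually.of_forall
  intro x
  simp only [smul_eq_mul, map_mul]
  have h1 : ∀ k : ℤ, conj (fourier k (-x) : ℂ) = fourier k x := by
    intro k
    rw [fourier_apply, fourier_apply]
    rw [smul_neg, AddCircle.toCircle_neg, Circle.coe_inv_eq_conj, Complex.conj_conj]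
  rw [h1]
  congr 1
  unfold th
  rw [← F_conj, h1]

lemma conj_c (n : ℕ) : conj (c n) = c n := by
  rw [← fourier_th_nat, fourier_conj_th]

lemma norm_th (x : Ci) : ‖th x‖ = 1 := norm_F_eq (norm_fourier x 1)

lemma measurable_th : Measurable th := by
  apply measurable_F.comp
  fun_prop

/-- the conjugate symbol -/
lemma fourier_conj (m : ℤ) : fourierCoeff (fun x => conj (th x)) m = fourierCoeff th (-m) := by
  rw [← fourier_conj_th (-m)]
  unfold fourierCoeff
  rw [← integral_conj]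
  apply integral_congr_ae
  apply Eventually.of_forall
  intro x
  simp only [smul_eq_mul, map_mul]
  rw [fourier_neg (n := -m)]
  simp

lemma F_tendsto : Tendsto (fun n : ℕ => F ((1 - 2 / ((n : ℝ) + 1) : ℝ) : ℂ)) atTop (𝓝 0) := by
  rw [tendsto_zero_iff_norm_tendsto_zero]
  have h1 : ∀ n : ℕ, ‖F ((1 - 2 / ((n : ℝ) + 1) : ℝ) : ℂ)‖ = Real.exp (-(n : ℝ)) := by
    intro n
    unfold F
    rw [Complex.norm_exp]
    congr 1
    have : ((((1 - 2 / ((n : ℝ) + 1) : ℝ) : ℂ) + 1) / (((1 - 2 / ((n : ℝ) + 1) : ℝ) : ℂ) - 1)) =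
        ((-(n : ℝ) : ℝ) : ℂ) := by
      push_cast
      have : (n : ℂ) + 1 ≠ 0 := by exact_mod_cast Nat.succ_ne_zero n
      field_simp
      ring
    rw [this, Complex.ofReal_re]
  simp_rw [h1]
  exact Real.tendsto_exp_neg_atTop_nhds_zero.comp tendsto_natCast_atTop_atTop

end Pool.Agent.Y267.TF
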