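import Mathlib
import Pool.Agent.Y267.TF1

/-!
# The Toeplitz operator of the singular inner function
-/

set_option autoImplicit false
open MeasureTheory Filter Topology Complex
open scoped InnerProductSpace ENNReal ComplexConjugate

namespace Pool.Agent.Y267.TF

/-- the Hilbert space `ℓ²` -/
noncomputable abbrev H := lp (fun _ : ℕ => ℂ) 2

/-- the Hilbert space `L²` of the circle -/
noncomputable abbrev L2 := Lp ℂ 2 (@AddCircle.haarAddCircle (1 : ℝ) _)

/-- the standard basis -/
noncomputable def e (k : ℕ) : H := lp.single 2 k (1 : ℂ)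

lemma inner_e (k : ℕ) (x : H) : ⟪e k, x⟫_ℂ = x k := by
  unfold e
  rw [lp.inner_single_left]
  simp

lemma e_apply (k j : ℕ) : (e k : H) j = if j = k then 1 else 0 := by
  unfold e
  rw [lp.single_apply, Pi.single_apply]

noncomputable def V : H →ₗᵢ[ℂ] L2 :=
  ((orthonormal_fourier (T := (1 : ℝ))).comp (fun n : ℕ => (n : ℤ)) Nat.cast_injective).orthogonalFamily.linearIsometry

lemma V_e (k : ℕ) : V (e k) = fourierLp 2 (k : ℤ) := by
  unfold V e
  rw [OrthogonalFamily.linearIsometry_apply_single]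
  simp

noncomputable def thL : Lp ℂ ⊤ (@AddCircle.haarAddCircle (1 : ℝ) _) :=
  MemLp.toLp th (memLp_top_of_bound measurable_th.aestronglyMeasurable 1
    (Eventually.of_forall fun x => (norm_th x).le))

lemma thL_coe : (thL : Ci → ℂ) =ᵐ[AddCircle.haarAddCircle] th := MemLp.coeFn_toLp _

noncomputable def M : L2 →L[ℂ] L2 :=
  (ContinuousLinearMap.lsmul ℂ ℂ).holderL AddCircle.haarAddCircle ⊤ 2 2 thL

lemma M_coe (f : L2) : (M f : Ci → ℂ) =ᵐ[AddCircle.haarAddCircle] fun x => th x * f x := by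
  have h := (ContinuousLinearMap.lsmul ℂ ℂ : ℂ →L[ℂ] ℂ →L[ℂ] ℂ).coeFn_holder (r := 2) thL f
  filter_upwards [h, thL_coe] with x hx hx2
  have : M f = (ContinuousLinearMap.lsmul ℂ ℂ : ℂ →L[ℂ] ℂ →L[ℂ] ℂ).holder 2 thL f := rfl
  rw [this, hx, hx2]
  rfl

lemma norm_M (f : L2) : ‖M f‖ = ‖f‖ := by
  rw [Lp.norm_def, Lp.norm_def]
  congr 1
  apply eLpNorm_congr_norm_ae
  filter_upwards [M_coe f] with x hx
  rw [hx, norm_mul, norm_th, one_mul]

lemma inner_fourier (m : ℤ) (f : L2) : ⟪(fourierLp 2 m : L2), f⟫_ℂ = fourierCoeff f m := by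
  rw [← fourierBasis_repr, HilbertBasis.repr_apply_apply, coe_fourierBasis]

lemma inner_fourier_M (m n : ℤ) : ⟪(fourierLp 2 m : L2), M (fourierLp 2 n)⟫_ℂ = fourierCoeff th (m - n) := by
  rw [inner_fourier]
  unfold fourierCoeff
  apply integral_congr_ae
  filter_upwards [M_coe (fourierLp 2 n), coeFn_fourierLp (T := (1 : ℝ)) 2 n] with x hx hx2
  rw [hx, hx2]
  simp only [smul_eq_mul]
  have : (fourier (-(m - n)) x : ℂ) = fourier (-m) x * fourier n x := by
    rw [← fourier_add]
    congr 2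
    ring
  rw [this]
  ring

/-- the Toeplitz operator -/
noncomputable def A : H →L[ℂ] H :=
  (ContinuousLinearMap.adjoint V.toContinuousLinearMap).comp (M.comp V.toContinuousLinearMap)

lemma A_apply (x : H) : A x = ContinuousLinearMap.adjoint V.toContinuousLinearMap (M (V x)) := rfl

lemma adj_V (f : L2) (j : ℕ) : (ContinuousLinearMap.adjoint V.toContinuousLinearMap f) j =
    ⟪(fourierLp 2 (j : ℤ) : L2), f⟫_ℂ := by
  rw [← inner_e, ContinuousLinearMap.adjoint_inner_right]
  congr 1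
  exact V_e j

lemma A_coord (j k : ℕ) : (A (e k)) j = fourierCoeff th ((j : ℤ) - (k : ℤ)) := by
  rw [A_apply, adj_V, V_e, inner_fourier_M]

lemma adj_V_V (x : H) : ContinuousLinearMap.adjoint V.toContinuousLinearMap (V x) = x := by
  apply ext_inner_left ℂ
  intro y
  rw [ContinuousLinearMap.adjoint_inner_right]
  exact V.inner_map_map y x

lemma MV_neg (x : H) (m : ℤ) (hm : m < 0) : ⟪(fourierLp 2 m : L2), M (V x)⟫_ℂ = 0 := by
  have h1 : ∀ y : H, ⟪y, ContinuousLinearMap.adjoint (M.comp V.toContinuousLinearMap) (fourierLp 2 m)⟫_ℂ = 0 := by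
    have h2 : ContinuousLinearMap.adjoint (M.comp V.toContinuousLinearMap) (fourierLp 2 m) = 0 := by
      apply lp.ext
      funext j
      rw [← inner_e, ContinuousLinearMap.adjoint_inner_right]
      have : (M.comp V.toContinuousLinearMap) (e j) = M (fourierLp 2 (j : ℤ)) := by
        rw [← V_e]; rfl
      rw [this, ← inner_conj_symm, inner_fourier_M, fourier_th_neg _ (by omega)]
      simp
    intro y
    rw [h2, inner_zero_right]
  have h3 := h1 x
  rw [ContinuousLinearMap.adjoint_inner_right] at h3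
  rw [← inner_conj_symm]
  have : (M.comp V.toContinuousLinearMap) x = M (V x) := rfl
  rw [← this, h3]
  simp

lemma V_adj_V (f : L2) (hf : ∀ m : ℤ, m < 0 → ⟪(fourierLp 2 m : L2), f⟫_ℂ = 0) :
    V (ContinuousLinearMap.adjoint V.toContinuousLinearMap f) = f := by
  apply (fourierBasis (T := (1 : ℝ))).repr.injective
  apply lp.ext
  funext m
  rw [HilbertBasis.repr_apply_apply, HilbertBasis.repr_apply_apply, coe_fourierBasis]
  rcases lt_or_ge m 0 with hm | hm
  · rw [hf m hm]
    have h1 : ContinuousLinearMap.adjoint V.toContinuousLinearMap (fourierLp 2 m) = 0 := by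
      apply lp.ext
      funext j
      rw [adj_V]
      have := orthonormal_fourier (T := (1 : ℝ))
      rw [orthonormal_iff_ite] at this
      rw [this]
      have : ¬ ((j : ℤ) = m) := by omega
      simp [this]
    have h2 : ⟪(fourierLp 2 m : L2), V.toContinuousLinearMap (ContinuousLinearMap.adjoint V.toContinuousLinearMap f)⟫_ℂ = 0 := by
      rw [← ContinuousLinearMap.adjoint_inner_left, h1, inner_zero_left]
    exact h2
  · obtain ⟨k, rfl⟩ := Int.eq_ofNat_of_zero_le hm
    have : (fourierLp 2 (k : ℤ) : L2) = V (e k) := (V_e k).symm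
    rw [this, V.inner_map_map, inner_e, adj_V, V_e]

lemma norm_A (x : H) : ‖A x‖ = ‖x‖ := by
  rw [A_apply, ← V.norm_map, V_adj_V _ (fun m hm => MV_neg x m hm), norm_M, V.norm_map]

lemma adj_A_A (x : H) : ContinuousLinearMap.adjoint A (A x) = x := by
  have h : ContinuousLinearMap.adjoint A ∘L A = 1 := by
    rw [← ContinuousLinearMap.norm_map_iff_adjoint_comp_self]
    exact norm_A
  exact congrArg (fun B : H →L[ℂ] H => B x) h

lemma adj_A_coord (j k : ℕ) : (ContinuousLinearMap.adjoint A (e k)) j = fourierCoeff th ((k : ℤ) - (j : ℤ)) := by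
  rw [← inner_e, ContinuousLinearMap.adjoint_inner_right, ← inner_conj_symm, inner_e, A_coord,
    fourier_conj_th]

lemma A_coord_lt (j k : ℕ) (h : j < k) : (A (e k)) j = 0 := by
  rw [A_coord, fourier_th_neg _ (by omega)]

/-- the vector `(1, r, r², …)` -/
noncomputable def kr (r : ℝ) (h0 : 0 ≤ r) (h1 : r < 1) : H :=
  ⟨fun k => (r : ℂ) ^ k, by
    apply memℓp_gen
    have : Summable fun k : ℕ => (r ^ 2) ^ k := summable_geometric_of_lt_one (by positivity) (by nlinarith)
    refine this.congr fun k => ?_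
    simp only [ENNReal.toReal_ofNat, Real.rpow_ofNat, norm_pow, Complex.norm_real, Real.norm_eq_abs]
    rw [abs_of_nonneg h0, ← pow_mul, ← pow_mul, mul_comm]⟩

lemma kr_apply (r : ℝ) (h0 : 0 ≤ r) (h1 : r < 1) (k : ℕ) : (kr r h0 h1) k = (r : ℂ) ^ k := rfl

lemma A_adj_kr (r : ℝ) (h0 : 0 ≤ r) (h1 : r < 1) :
    ContinuousLinearMap.adjoint A (kr r h0 h1) = F r • kr r h0 h1 := by
  apply lp.ext
  funext j
  rw [← inner_e, ContinuousLinearMap.adjoint_inner_right]
  have h2 := lp.hasSum_inner (𝕜 := ℂ) (A (e j)) (kr r h0 h1)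
  have h3 : HasSum (fun i : ℕ => c i * (r : ℂ) ^ i * (r : ℂ) ^ j) (F r * (r : ℂ) ^ j) :=
    (hasSum_F r h0 h1).mul_right _
  have h4 : HasSum (fun i : ℕ => ⟪(A (e j)) i, (kr r h0 h1) i⟫_ℂ) (F r * (r : ℂ) ^ j) := by
    rw [← hasSum_nat_add_iff' j]
    have h5 : ∑ i ∈ Finset.range j, ⟪(A (e j)) i, (kr r h0 h1) i⟫_ℂ = 0 := by
      apply Finset.sum_eq_zero
      intro i hi
      rw [A_coord_lt i j (Finset.mem_range.1 hi), inner_zero_left]
    rw [h5, sub_zero]
    have h6 : (fun i : ℕ => ⟪(A (e j)) (i + j), (kr r h0 h1) (i + j)⟫_ℂ) =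
        fun i : ℕ => c i * (r : ℂ) ^ i * (r : ℂ) ^ j := by
      funext i
      have h7 : ((i + j : ℕ) : ℤ) - (j : ℤ) = (i : ℤ) := by push_cast; ring
      rw [A_coord, h7, fourier_th_nat, kr_apply, RCLike.inner_apply', conj_c, pow_add, mul_assoc]
    rw [h6]
    exact h3
  rw [h2.unique h4]
  rfl

end Pool.Agent.Y267.TF
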