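import Mathlib
import Pool.Agent.Y267.TF2

/-!
# Finite sections
-/

set_option autoImplicit false
open MeasureTheory Filter Topology Complex
open scoped InnerProductSpace ENNReal ComplexConjugate

namespace Pool.Agent.Y267.TF

lemma ext_e {S T : H →L[ℂ] H} (h : ∀ k, S (e k) = T (e k)) : S = T := by
  ext1 x
  apply lp.ext
  funext j
  rw [← inner_e, ← inner_e]
  have h1 : ContinuousLinearMap.adjoint S (e j) = ContinuousLinearMap.adjoint T (e j) := by
    apply lp.ext
    funext k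
    rw [← inner_e, ← inner_e, ContinuousLinearMap.adjoint_inner_right,
      ContinuousLinearMap.adjoint_inner_right, h]
  rw [← ContinuousLinearMap.adjoint_inner_left, h1, ContinuousLinearMap.adjoint_inner_left]

/-- the projections -/
noncomputable def P (n : ℕ) : H →L[ℂ] H :=
  ∑ k ∈ Finset.range (n + 1), (innerSL ℂ (e k)).smulRight (e k)

/-- the flips -/
noncomputable def W (n : ℕ) : H →L[ℂ] H :=
  ∑ k ∈ Finset.range (n + 1), (innerSL ℂ (e k)).smulRight (e (n - k))

lemma P_apply (n : ℕ) (x : H) (j : ℕ) : (P n x) j = if j ≤ n then x j else 0 := by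
  unfold P
  rw [_root_.sum_apply]
  simp only [ContinuousLinearMap.smulRight_apply, innerSL_apply_apply, inner_e]
  rw [lp.coeFn_sum, Finset.sum_apply]
  simp only [lp.coeFn_smul, Pi.smul_apply, e_apply, smul_eq_mul, mul_ite, mul_one, mul_zero]
  rw [Finset.sum_ite_eq]
  simp [Nat.lt_succ_iff]

lemma W_apply (n : ℕ) (x : H) (j : ℕ) : (W n x) j = if j ≤ n then x (n - j) else 0 := by
  unfold W
  rw [_root_.sum_apply]
  simp only [ContinuousLinearMap.smulRight_apply, innerSL_apply_apply, inner_e]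
  rw [lp.coeFn_sum, Finset.sum_apply]
  simp only [lp.coeFn_smul, Pi.smul_apply, e_apply, smul_eq_mul, mul_ite, mul_one, mul_zero]
  split_ifs with h
  · rw [Finset.sum_eq_single (n - j)]
    · rw [if_pos (by omega)]
    · intro b hb hb2
      rw [Finset.mem_range] at hb
      rw [if_neg (by omega)]
    · intro hb
      rw [Finset.mem_range] at hb
      omega
  · apply Finset.sum_eq_zero
    intro b hb
    rw [if_neg (by omega)]

lemma PP (n : ℕ) (x : H) : P n (P n x) = P n x := by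
  apply lp.ext; funext j
  simp only [P_apply]
  split_ifs <;> rfl

lemma WW (n : ℕ) (x : H) : W n (W n x) = P n x := by
  apply lp.ext; funext j
  rw [P_apply, W_apply]
  split_ifs with h1
  · rw [W_apply, if_pos (by omega)]
    have : n - (n - j) = j := by omega
    rw [this]
  · rfl

lemma PW (n : ℕ) (x : H) : P n (W n x) = W n x := by
  apply lp.ext; funext j
  simp only [P_apply, W_apply]
  split_ifs <;> rfl

lemma WP (n : ℕ) (x : H) : W n (P n x) = W n x := by
  apply lp.ext; funext j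
  simp only [P_apply, W_apply]
  split_ifs with h1 h2
  · rfl
  · omega
  · rfl

lemma inner_P (n : ℕ) (x y : H) : ⟪P n x, y⟫_ℂ = ⟪x, P n y⟫_ℂ := by
  rw [lp.inner_eq_tsum, lp.inner_eq_tsum]
  congr 1
  funext j
  simp only [P_apply]
  split_ifs <;> simp

lemma inner_W (n : ℕ) (x y : H) : ⟪W n x, y⟫_ℂ = ⟪x, W n y⟫_ℂ := by
  rw [lp.inner_eq_tsum, lp.inner_eq_tsum]
  rw [tsum_eq_sum (s := Finset.range (n + 1)), tsum_eq_sum (s := Finset.range (n + 1))]
  · rw [← Finset.sum_range_reflect]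
    apply Finset.sum_congr rfl
    intro j hj
    rw [Finset.mem_range] at hj
    have h1 : n - (n + 1 - 1 - j) = j := by omega
    have h2 : n + 1 - 1 - j = n - j := by omega
    rw [W_apply, W_apply, if_pos (by omega), if_pos (by omega), h1, h2]
  · intro b hb
    rw [Finset.mem_range] at hb
    rw [W_apply, if_neg (by omega), inner_zero_right]
  · intro b hb
    rw [Finset.mem_range] at hb
    rw [W_apply, if_neg (by omega), inner_zero_left]

lemma norm_P_le (n : ℕ) (x : H) : ‖P n x‖ ≤ ‖x‖ := by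
  have h1 : ‖P n x‖ ^ 2 ≤ ‖x‖ * ‖P n x‖ := by
    have h2 : ((‖P n x‖ ^ 2 : ℝ) : ℂ) = ⟪x, P n x⟫_ℂ := by
      have h0 : ⟪x, P n x⟫_ℂ = ⟪P n x, P n x⟫_ℂ := by
        rw [inner_P, PP]
      have := inner_self_eq_norm_sq_to_K (𝕜 := ℂ) (P n x)
      rw [h0]
      push_cast
      exact_mod_cast this.symm
    have h3 := norm_inner_le_norm (𝕜 := ℂ) x (P n x)
    rw [← h2, Complex.norm_real, Real.norm_of_nonneg (by positivity)] at h3
    exact h3
  by_contra h
  push Not at h
  have h4 : 0 < ‖P n x‖ := lt_of_le_of_lt (norm_nonneg _) h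
  nlinarith

lemma norm_W_le (n : ℕ) (x : H) : ‖W n x‖ ≤ ‖x‖ := by
  have h2 : ((‖W n x‖ ^ 2 : ℝ) : ℂ) = ⟪x, P n x⟫_ℂ := by
    rw [← WW, ← inner_W]
    have := inner_self_eq_norm_sq_to_K (𝕜 := ℂ) (W n x)
    push_cast
    exact_mod_cast this.symm
  have h3 := norm_inner_le_norm (𝕜 := ℂ) x (P n x)
  rw [← h2, Complex.norm_real, Real.norm_of_nonneg (by positivity)] at h3
  have h4 := norm_P_le n x
  have h5 : ‖W n x‖ ^ 2 ≤ ‖x‖ ^ 2 := by nlinarith [norm_nonneg x]
  exact le_of_sq_le_sq h5 (norm_nonneg x)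

lemma P_tendsto (x : H) : Tendsto (fun n => P n x) atTop (𝓝 x) := by
  have h := (lp.hasSum_single (by norm_num) x).tendsto_sum_nat
  have h2 := h.comp (tendsto_add_atTop_nat 1)
  refine h2.congr fun n => ?_
  apply lp.ext; funext j
  simp only [Function.comp]
  rw [lp.coeFn_sum, Finset.sum_apply, P_apply]
  simp only [lp.single_apply, Pi.single_apply]
  rw [Finset.sum_ite_eq]
  simp [Nat.lt_succ_iff]

/-- weakly null bounded sequences -/
lemma weak_null (x : ℕ → H) (hb : ∀ n, ‖x n‖ ≤ 1) (hc : ∀ j, Tendsto (fun n => (x n) j) atTop (𝓝 0)) (u : H) :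
    Tendsto (fun n => ⟪u, x n⟫_ℂ) atTop (𝓝 0) := by
  rw [Metric.tendsto_atTop]
  intro ε hε
  obtain ⟨m, hm⟩ := ((tendsto_iff_norm_sub_tendsto_zero.1 (P_tendsto u)).eventually
    (gt_mem_nhds (half_pos hε))).exists
  have h1 : Tendsto (fun n => ⟪P m u, x n⟫_ℂ) atTop (𝓝 0) := by
    have h2 : ∀ n, ⟪P m u, x n⟫_ℂ = ∑ j ∈ Finset.range (m + 1), ⟪u j, (x n) j⟫_ℂ := by
      intro n
      rw [lp.inner_eq_tsum, tsum_eq_sum (s := Finset.range (m + 1))]
      · apply Finset.sum_congr rfl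
        intro j hj
        rw [Finset.mem_range] at hj
        rw [P_apply, if_pos (by omega)]
      · intro b hb
        rw [Finset.mem_range] at hb
        rw [P_apply, if_neg (by omega), inner_zero_left]
    simp_rw [h2]
    have h3 : (0 : ℂ) = ∑ j ∈ Finset.range (m + 1), ⟪u j, (0 : ℂ)⟫_ℂ := by simp
    rw [h3]
    apply tendsto_finsetSum
    intro j _
    exact Tendsto.inner tendsto_const_nhds (hc j)
  obtain ⟨N, hN⟩ := Metric.tendsto_atTop.1 h1 (ε / 2) (half_pos hε)
  refine ⟨N, fun n hn => ?_⟩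
  have h4 := hN n hn
  rw [dist_zero_right] at h4 ⊢
  have h5 : ⟪u, x n⟫_ℂ = ⟪P m u, x n⟫_ℂ - ⟪P m u - u, x n⟫_ℂ := by
    rw [inner_sub_left]; ring
  rw [h5]
  calc ‖⟪P m u, x n⟫_ℂ - ⟪P m u - u, x n⟫_ℂ‖ ≤ ‖⟪P m u, x n⟫_ℂ‖ + ‖⟪P m u - u, x n⟫_ℂ‖ := norm_sub_le _ _
    _ < ε / 2 + ε / 2 := by
        apply add_lt_add h4
        refine lt_of_le_of_lt (norm_inner_le_norm _ _) ?_
        have := hb n
        have h6 : ‖P m u - u‖ * ‖x n‖ ≤ ‖P m u - u‖ * 1 := by gcongr
        linarith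
    _ = ε := by ring

lemma compact_null (K : H →L[ℂ] H) (hK : IsCompactOperator K) (x : ℕ → H) (hb : ∀ n, ‖x n‖ ≤ 1)
    (hc : ∀ j, Tendsto (fun n => (x n) j) atTop (𝓝 0)) :
    Tendsto (fun n => K (x n)) atTop (𝓝 0) := by
  apply tendsto_of_subseq_tendsto
  intro ns hns
  have hcomp : IsCompact (closure (K '' Metric.closedBall 0 1)) :=
    hK.isCompact_closure_image_closedBall 1
  have hmem : ∀ n, K (x (ns n)) ∈ closure (K '' Metric.closedBall 0 1) := by
    intro n
    apply subset_closure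
    refine ⟨x (ns n), ?_, rfl⟩
    rw [mem_closedBall_zero_iff]
    exact hb _
  obtain ⟨y, -, φ, hφ, hy⟩ := hcomp.tendsto_subseq hmem
  refine ⟨φ, ?_⟩
  have : y = 0 := by
    apply lp.ext
    funext j
    rw [← inner_e]
    have h1 : Tendsto (fun n => ⟪e j, K (x (ns (φ n)))⟫_ℂ) atTop (𝓝 ⟪e j, y⟫_ℂ) :=
      Tendsto.inner tendsto_const_nhds hy
    have h2 : Tendsto (fun n => ⟪e j, K (x (ns (φ n)))⟫_ℂ) atTop (𝓝 0) := by
      have h3 := (weak_null x hb hc (ContinuousLinearMap.adjoint K (e j))).comp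
        (hns.comp hφ.tendsto_atTop)
      refine h3.congr fun n => ?_
      simp only [Function.comp]
      rw [ContinuousLinearMap.adjoint_inner_left]
    rw [tendsto_nhds_unique h1 h2]
    rfl
  rw [this] at hy
  exact hy

end Pool.Agent.Y267.TF
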