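import Mathlib
import Pool.Agent.Y267.TF3

/-!
# The sequence `(P_n - a_n b_n) (P_n - b_n a_n)`
-/

set_option autoImplicit false
open MeasureTheory Filter Topology Complex
open scoped InnerProductSpace ENNReal ComplexConjugate

namespace Pool.Agent.Y267.TF

noncomputable def Ad : H →L[ℂ] H := ContinuousLinearMap.adjoint A

lemma Ad_coord (j k : ℕ) : (Ad (e k)) j = fourierCoeff th ((k : ℤ) - (j : ℤ)) := adj_A_coord j k

lemma P_e (n k : ℕ) (h : k ≤ n) : P n (e k) = e k := by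
  apply lp.ext; funext j
  rw [P_apply, e_apply]
  split_ifs with h1 h2 h3
  · rfl
  · rfl
  · omega
  · rfl

lemma P_e' (n k : ℕ) (h : n < k) : P n (e k) = 0 := by
  apply lp.ext; funext j
  rw [P_apply, e_apply]
  split_ifs with h1 h2
  · omega
  · rfl
  · rfl

lemma W_e (n k : ℕ) (h : k ≤ n) : W n (e k) = e (n - k) := by
  apply lp.ext; funext j
  rw [W_apply, e_apply, e_apply]
  split_ifs with h1 h2 h3 h4 h5
  · rfl
  · omega
  · omega
  · rfl
  · omega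
  · rfl

lemma W_e' (n k : ℕ) (h : n < k) : W n (e k) = 0 := by
  apply lp.ext; funext j
  rw [W_apply, e_apply]
  split_ifs with h1 h2
  · omega
  · rfl
  · rfl

lemma PAP (n : ℕ) (x : H) : P n (A (P n x)) = P n (A x) := by
  have h : P n * A * P n = P n * A := by
    apply ext_e
    intro k
    rcases le_or_gt k n with hk | hk
    · change P n (A (P n (e k))) = P n (A (e k))
      rw [P_e n k hk]
    · change P n (A (P n (e k))) = P n (A (e k))
      rw [P_e' n k hk, map_zero, map_zero]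
      apply lp.ext; funext j
      rw [P_apply]
      split_ifs with h
      · rw [A_coord_lt j k (by omega)]; rfl
      · rfl
  exact congrArg (fun T : H →L[ℂ] H => T x) h

lemma WAW (n : ℕ) (x : H) : W n (A (W n x)) = P n (Ad (P n x)) := by
  have h : W n * A * W n = P n * Ad * P n := by
    apply ext_e
    intro k
    change W n (A (W n (e k))) = P n (Ad (P n (e k)))
    rcases le_or_gt k n with hk | hk
    · rw [P_e n k hk, W_e n k hk]
      apply lp.ext; funext j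
      rw [P_apply, W_apply]
      split_ifs with h
      · rw [A_coord, Ad_coord]
        congr 1
        omega
      · rfl
    · rw [P_e' n k hk, W_e' n k hk]
      simp
  exact congrArg (fun T : H →L[ℂ] H => T x) h

lemma WAdW (n : ℕ) (x : H) : W n (Ad (W n x)) = P n (A (P n x)) := by
  have h : W n * Ad * W n = P n * A * P n := by
    apply ext_e
    intro k
    change W n (Ad (W n (e k))) = P n (A (P n (e k)))
    rcases le_or_gt k n with hk | hk
    · rw [P_e n k hk, W_e n k hk]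
      apply lp.ext; funext j
      rw [P_apply, W_apply]
      split_ifs with h
      · rw [A_coord, Ad_coord]
        congr 1
        omega
      · rfl
    · rw [P_e' n k hk, W_e' n k hk]
      simp
  exact congrArg (fun T : H →L[ℂ] H => T x) h

noncomputable def a (n : ℕ) : H →L[ℂ] H := P n * A * P n
noncomputable def b (n : ℕ) : H →L[ℂ] H := P n * Ad * P n
noncomputable def B (n : ℕ) : H →L[ℂ] H := P n - a n * b n
noncomputable def C (n : ℕ) : H →L[ℂ] H := P n - b n * a n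
noncomputable def Z (n : ℕ) : H →L[ℂ] H := B n * C n
noncomputable def Q (x : H) : H := x - A (Ad x)

lemma a_apply (n : ℕ) (x : H) : a n x = P n (A (P n x)) := rfl
lemma b_apply (n : ℕ) (x : H) : b n x = P n (Ad (P n x)) := rfl
lemma B_apply (n : ℕ) (x : H) : B n x = P n x - a n (b n x) := rfl
lemma C_apply (n : ℕ) (x : H) : C n x = P n x - b n (a n x) := rfl
lemma Z_apply (n : ℕ) (x : H) : Z n x = B n (C n x) := rfl

lemma B_eq (n : ℕ) (x : H) : B n x = P n (Q (P n x)) := by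
  rw [B_apply, a_apply, b_apply, PP, PAP, Q, map_sub, PP]

lemma WaW (n : ℕ) (x : H) : W n (a n (W n x)) = b n x := by
  rw [a_apply, WP, PW, WAW, b_apply]

lemma WbW (n : ℕ) (x : H) : W n (b n (W n x)) = a n x := by
  rw [b_apply, WP, PW, WAdW, a_apply]

lemma Pa (n : ℕ) (x : H) : P n (a n x) = a n x := by rw [a_apply, PP]
lemma Pb (n : ℕ) (x : H) : P n (b n x) = b n x := by rw [b_apply, PP]
lemma aP (n : ℕ) (x : H) : a n (P n x) = a n x := by rw [a_apply, PP, a_apply]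
lemma bP (n : ℕ) (x : H) : b n (P n x) = b n x := by rw [b_apply, PP, b_apply]

lemma bW (n : ℕ) (x : H) : b n (W n x) = W n (a n x) := by rw [← WbW n x, WW, Pb]
lemma aW (n : ℕ) (x : H) : a n (W n x) = W n (b n x) := by rw [← WaW n x, WW, Pa]

lemma WBW (n : ℕ) (x : H) : W n (B n (W n x)) = C n x := by
  rw [B_apply, map_sub, PW, WW, C_apply, bW, WaW]

lemma WCW (n : ℕ) (x : H) : W n (C n (W n x)) = B n x := by
  rw [C_apply, map_sub, PW, WW, B_apply, aW, WbW]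

lemma PB (n : ℕ) (x : H) : P n (B n x) = B n x := by rw [B_apply, map_sub, PP, Pa]
lemma PC (n : ℕ) (x : H) : P n (C n x) = C n x := by rw [C_apply, map_sub, PP, Pb]
lemma BP (n : ℕ) (x : H) : B n (P n x) = B n x := by rw [B_apply, PP, bP, B_apply]
lemma CP (n : ℕ) (x : H) : C n (P n x) = C n x := by rw [C_apply, PP, aP, C_apply]

lemma CW (n : ℕ) (x : H) : C n (W n x) = W n (B n x) := by rw [← WCW n x, WW, PC]

lemma WZW (n : ℕ) (x : H) : W n (Z n (W n x)) = C n (B n x) := by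
  rw [Z_apply, CW, WBW]

lemma norm_A_le (x : H) : ‖A x‖ ≤ ‖x‖ := (norm_A x).le

lemma norm_Ad_le (x : H) : ‖Ad x‖ ≤ ‖x‖ := by
  have h1 : ‖Ad‖ ≤ 1 := by
    unfold Ad
    rw [LinearIsometryEquiv.norm_map]
    apply ContinuousLinearMap.opNorm_le_bound _ zero_le_one
    intro x
    rw [one_mul]
    exact norm_A_le x
  calc ‖Ad x‖ ≤ ‖Ad‖ * ‖x‖ := Ad.le_opNorm x
    _ ≤ 1 * ‖x‖ := by gcongr
    _ = ‖x‖ := one_mul _

lemma norm_a_le (n : ℕ) (x : H) : ‖a n x‖ ≤ ‖x‖ :=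
  (norm_P_le n _).trans ((norm_A_le _).trans (norm_P_le n x))

lemma norm_b_le (n : ℕ) (x : H) : ‖b n x‖ ≤ ‖x‖ :=
  (norm_P_le n _).trans ((norm_Ad_le _).trans (norm_P_le n x))

lemma st_comp {X Y : ℕ → H → H} {L K : H → H} (x : H)
    (hlip : ∀ n y z, ‖X n y - X n z‖ ≤ 2 * ‖y - z‖)
    (hX : ∀ y, Tendsto (fun n => X n y) atTop (𝓝 (L y)))
    (hY : Tendsto (fun n => Y n x) atTop (𝓝 (K x))) :
    Tendsto (fun n => X n (Y n x)) atTop (𝓝 (L (K x))) := by
  have h1 : Tendsto (fun n => X n (Y n x) - X n (K x)) atTop (𝓝 0) := by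
    apply squeeze_zero_norm (fun n => hlip n _ _)
    rw [tendsto_iff_norm_sub_tendsto_zero] at hY
    have := hY.const_mul 2
    rwa [mul_zero] at this
  have h2 := h1.add (hX (K x))
  simpa using h2

lemma P_lip (n : ℕ) (y z : H) : ‖P n y - P n z‖ ≤ 2 * ‖y - z‖ := by
  rw [← map_sub]
  have := norm_P_le n (y - z)
  have := norm_nonneg (y - z)
  linarith

lemma a_lip (n : ℕ) (y z : H) : ‖a n y - a n z‖ ≤ 2 * ‖y - z‖ := by
  rw [← map_sub]
  have := norm_a_le n (y - z)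
  have := norm_nonneg (y - z)
  linarith

lemma b_lip (n : ℕ) (y z : H) : ‖b n y - b n z‖ ≤ 2 * ‖y - z‖ := by
  rw [← map_sub]
  have := norm_b_le n (y - z)
  have := norm_nonneg (y - z)
  linarith

lemma B_lip (n : ℕ) (y z : H) : ‖B n y - B n z‖ ≤ 2 * ‖y - z‖ := by
  rw [← map_sub, B_apply]
  have h1 := norm_P_le n (y - z)
  have h2 := (norm_a_le n (b n (y - z))).trans (norm_b_le n (y - z))
  have := norm_sub_le (P n (y - z)) (a n (b n (y - z)))
  linarith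

lemma C_lip (n : ℕ) (y z : H) : ‖C n y - C n z‖ ≤ 2 * ‖y - z‖ := by
  rw [← map_sub, C_apply]
  have h1 := norm_P_le n (y - z)
  have h2 := (norm_b_le n (a n (y - z))).trans (norm_a_le n (y - z))
  have := norm_sub_le (P n (y - z)) (b n (a n (y - z)))
  linarith

lemma a_tendsto (x : H) : Tendsto (fun n => a n x) atTop (𝓝 (A x)) := by
  have h1 : Tendsto (fun n => A (P n x)) atTop (𝓝 (A x)) := (A.continuous.tendsto x).comp (P_tendsto x)
  exact st_comp (X := fun n => P n) (Y := fun n y => A (P n y)) (L := id) (K := A) x P_lip P_tendsto h1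

lemma b_tendsto (x : H) : Tendsto (fun n => b n x) atTop (𝓝 (Ad x)) := by
  have h1 : Tendsto (fun n => Ad (P n x)) atTop (𝓝 (Ad x)) := (Ad.continuous.tendsto x).comp (P_tendsto x)
  exact st_comp (X := fun n => P n) (Y := fun n y => Ad (P n y)) (L := id) (K := Ad) x P_lip P_tendsto h1

lemma B_tendsto (x : H) : Tendsto (fun n => B n x) atTop (𝓝 (Q x)) := by
  have h1 := st_comp (X := fun n => a n) (Y := fun n => b n) (L := A) (K := Ad) x a_lip a_tendsto (b_tendsto x)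
  exact (P_tendsto x).sub h1

lemma C_tendsto (x : H) : Tendsto (fun n => C n x) atTop (𝓝 0) := by
  have h1 := st_comp (X := fun n => b n) (Y := fun n => a n) (L := Ad) (K := A) x b_lip b_tendsto (a_tendsto x)
  have h2 := (P_tendsto x).sub h1
  have h3 : x - Ad (A x) = 0 := by
    unfold Ad
    rw [adj_A_A, sub_self]
  rw [h3] at h2
  exact h2

lemma Q_zero : Q 0 = 0 := by simp [Q]

lemma Z_tendsto (x : H) : Tendsto (fun n => Z n x) atTop (𝓝 0) := by
  have := st_comp (X := fun n => B n) (Y := fun n => C n) (L := Q) (K := fun _ => 0) x B_lip B_tendsto (C_tendsto x)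
  rw [Q_zero] at this
  exact this

lemma WZW_tendsto (x : H) : Tendsto (fun n => (W n * Z n * W n) x) atTop (𝓝 0) := by
  have h1 := st_comp (X := fun n => C n) (Y := fun n => B n) (L := fun _ => 0) (K := Q) x C_lip C_tendsto
    (B_tendsto x)
  refine h1.congr fun n => ?_
  rw [← WZW]
  rfl

/-! ### Lower bound -/

lemma inner_Q (x y : H) : ⟪Q x, y⟫_ℂ = ⟪x, Q y⟫_ℂ := by
  unfold Q
  rw [inner_sub_left, inner_sub_right]
  congr 1
  unfold Ad
  have e1 : ⟪A (ContinuousLinearMap.adjoint A x), y⟫_ℂ =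
      ⟪ContinuousLinearMap.adjoint A x, ContinuousLinearMap.adjoint A y⟫_ℂ :=
    (ContinuousLinearMap.adjoint_inner_right A _ _).symm
  have e2 : ⟪ContinuousLinearMap.adjoint A x, ContinuousLinearMap.adjoint A y⟫_ℂ =
      ⟪x, A (ContinuousLinearMap.adjoint A y)⟫_ℂ := ContinuousLinearMap.adjoint_inner_left A _ _
  rw [e1, e2]

lemma QQ (x : H) : Q (Q x) = Q x := by
  have h3 : ∀ x, Ad (A x) = x := by
    intro x
    unfold Ad
    rw [adj_A_A]
  unfold Q
  rw [map_sub, h3, sub_self, map_zero, sub_zero]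

lemma norm_Q_le (x : H) : ‖Q x‖ ≤ ‖x‖ := by
  have h1 : ‖Q x‖ ^ 2 ≤ ‖x‖ * ‖Q x‖ := by
    have h2 : ((‖Q x‖ ^ 2 : ℝ) : ℂ) = ⟪x, Q x⟫_ℂ := by
      have h0 : ⟪x, Q x⟫_ℂ = ⟪Q x, Q x⟫_ℂ := by
        rw [inner_Q, QQ]
      have := inner_self_eq_norm_sq_to_K (𝕜 := ℂ) (Q x)
      rw [h0]
      push_cast
      exact_mod_cast this.symm
    have h3 := norm_inner_le_norm (𝕜 := ℂ) x (Q x)
    rw [← h2, Complex.norm_real, Real.norm_of_nonneg (by positivity)] at h3
    exact h3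
  by_contra h
  push Not at h
  have h4 : 0 < ‖Q x‖ := lt_of_le_of_lt (norm_nonneg _) h
  nlinarith

lemma Q_sub (x y : H) : Q (x - y) = Q x - Q y := by
  unfold Q
  rw [map_sub, map_sub]
  abel

section vec
variable (r : ℝ) (h0 : 0 ≤ r) (h1 : r < 1)

lemma norm_kr_sq : ‖kr r h0 h1‖ ^ 2 = (1 - r ^ 2)⁻¹ := by
  have h := lp.hasSum_norm (p := 2) (by norm_num) (kr r h0 h1)
  have h2 : HasSum (fun k : ℕ => (r ^ 2) ^ k) (1 - r ^ 2)⁻¹ :=
    hasSum_geometric_of_lt_one (by positivity) (by nlinarith)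
  have h3 : (fun k : ℕ => ‖(kr r h0 h1) k‖ ^ (2 : ℝ≥0∞).toReal) = fun k : ℕ => (r ^ 2) ^ k := by
    funext k
    simp only [ENNReal.toReal_ofNat, Real.rpow_ofNat, kr_apply, norm_pow, Complex.norm_real, Real.norm_eq_abs]
    rw [abs_of_nonneg h0, ← pow_mul, ← pow_mul, mul_comm]
  rw [h3] at h
  have h4 := h.unique h2
  simpa using h4

lemma norm_kr_sub (n : ℕ) : ‖kr r h0 h1 - P n (kr r h0 h1)‖ = r ^ (n + 1) * ‖kr r h0 h1‖ := by
  have h5 : ‖kr r h0 h1 - P n (kr r h0 h1)‖ ^ 2 = (r ^ (n + 1) * ‖kr r h0 h1‖) ^ 2 := by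
    rw [mul_pow, norm_kr_sq]
    have h := lp.hasSum_norm (p := 2) (by norm_num) (kr r h0 h1 - P n (kr r h0 h1))
    have h2 : HasSum (fun k : ℕ => (r ^ 2) ^ k * (r ^ (n + 1)) ^ 2) ((1 - r ^ 2)⁻¹ * (r ^ (n + 1)) ^ 2) :=
      (hasSum_geometric_of_lt_one (by positivity) (by nlinarith)).mul_right _
    have h3 : HasSum (fun k : ℕ => ‖(kr r h0 h1 - P n (kr r h0 h1)) k‖ ^ (2 : ℝ≥0∞).toReal)
        ((1 - r ^ 2)⁻¹ * (r ^ (n + 1)) ^ 2) := by
      rw [← hasSum_nat_add_iff' (n + 1)]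
      have h4 : ∑ i ∈ Finset.range (n + 1), ‖(kr r h0 h1 - P n (kr r h0 h1)) i‖ ^ (2 : ℝ≥0∞).toReal = 0 := by
        apply Finset.sum_eq_zero
        intro i hi
        rw [Finset.mem_range] at hi
        rw [lp.coeFn_sub, Pi.sub_apply, P_apply, if_pos (by omega), sub_self]
        simp
      rw [h4, sub_zero]
      have h5 : (fun k : ℕ => ‖(kr r h0 h1 - P n (kr r h0 h1)) (k + (n + 1))‖ ^ (2 : ℝ≥0∞).toReal) =
          fun k : ℕ => (r ^ 2) ^ k * (r ^ (n + 1)) ^ 2 := by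
        funext k
        rw [lp.coeFn_sub, Pi.sub_apply, P_apply, if_neg (by omega), sub_zero, kr_apply]
        simp only [ENNReal.toReal_ofNat, Real.rpow_ofNat, norm_pow, Complex.norm_real, Real.norm_eq_abs]
        rw [abs_of_nonneg h0]
        ring
      rw [h5]
      exact h2
    have h4 := h.unique h3
    have h6 : ‖kr r h0 h1 - P n (kr r h0 h1)‖ ^ 2 = (1 - r ^ 2)⁻¹ * (r ^ (n + 1)) ^ 2 := by
      simpa using h4
    rw [h6]; ring
  have h6 : 0 ≤ r ^ (n + 1) * ‖kr r h0 h1‖ := by positivity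
  exact (pow_left_inj₀ (norm_nonneg _) h6 two_ne_zero).1 h5

lemma inner_kr_W (n : ℕ) : ⟪kr r h0 h1, W n (kr r h0 h1)⟫_ℂ = (((n + 1 : ℝ) * r ^ n : ℝ) : ℂ) := by
  rw [lp.inner_eq_tsum, tsum_eq_sum (s := Finset.range (n + 1))]
  · have h2 : ∀ j ∈ Finset.range (n + 1), ⟪(kr r h0 h1) j, (W n (kr r h0 h1)) j⟫_ℂ = (r : ℂ) ^ n := by
      intro j hj
      rw [Finset.mem_range] at hj
      rw [W_apply, if_pos (by omega), kr_apply, kr_apply, RCLike.inner_apply', map_pow, Complex.conj_ofReal,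
        ← pow_add]
      congr 1
      omega
    rw [Finset.sum_congr rfl h2, Finset.sum_const, Finset.card_range]
    push_cast
    rw [nsmul_eq_mul]
    push_cast
    ring
  · intro b hb
    rw [Finset.mem_range] at hb
    rw [W_apply, if_neg (by omega), inner_zero_right]

/-- the key lower bound -/
lemma lower (n : ℕ) : (n + 1 : ℝ) * r ^ n * (1 - r ^ 2) - 2 * (‖F r‖ + r ^ (n + 1)) ≤
    (1 - r ^ 2) * ‖⟪P n (kr r h0 h1), Z n (W n (kr r h0 h1))⟫_ℂ‖ := by
  set k := kr r h0 h1 with hk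
  set u := Q (P n k) with hu
  have e1 : ⟪P n k, Z n (W n k)⟫_ℂ = ⟪u, W n u⟫_ℂ := by
    rw [Z_apply, CW, B_eq n (W n (B n k)), PW, ← inner_P, PP, ← inner_Q, B_eq, WP]
  have hd : ‖k - u‖ ≤ (‖F r‖ + r ^ (n + 1)) * ‖k‖ := by
    have h2 : k - u = A (Ad k) + Q (k - P n k) := by
      rw [Q_sub, hu]
      unfold Q
      abel
    rw [h2]
    have h3 : Ad k = F r • k := A_adj_kr r h0 h1
    calc ‖A (Ad k) + Q (k - P n k)‖ ≤ ‖A (Ad k)‖ + ‖Q (k - P n k)‖ := norm_add_le _ _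
      _ ≤ ‖F r‖ * ‖k‖ + r ^ (n + 1) * ‖k‖ := by
          apply add_le_add
          · rw [norm_A, h3, norm_smul]
          · refine (norm_Q_le _).trans ?_
            rw [norm_kr_sub]
      _ = _ := by ring
  have hu1 : ‖u‖ ≤ ‖k‖ := (norm_Q_le _).trans (norm_P_le n k)
  have e2 : ⟪k, W n k⟫_ℂ = ⟪u, W n u⟫_ℂ + ⟪k - u, W n u⟫_ℂ + ⟪k, W n (k - u)⟫_ℂ := by
    rw [inner_sub_left, map_sub, inner_sub_right]
    ring
  have h4 : (n + 1 : ℝ) * r ^ n ≤ ‖⟪u, W n u⟫_ℂ‖ + 2 * ((‖F r‖ + r ^ (n + 1)) * ‖k‖ ^ 2) := by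
    have h5 : ‖⟪k, W n k⟫_ℂ‖ = (n + 1 : ℝ) * r ^ n := by
      rw [inner_kr_W, Complex.norm_real, Real.norm_of_nonneg (by positivity)]
    rw [← h5, e2]
    refine (norm_add_le _ _).trans ?_
    have h6 := norm_add_le (⟪u, W n u⟫_ℂ) (⟪k - u, W n u⟫_ℂ)
    have h7 : ‖⟪k - u, W n u⟫_ℂ‖ ≤ (‖F r‖ + r ^ (n + 1)) * ‖k‖ ^ 2 := by
      calc ‖⟪k - u, W n u⟫_ℂ‖ ≤ ‖k - u‖ * ‖W n u‖ := norm_inner_le_norm _ _
        _ ≤ ((‖F r‖ + r ^ (n + 1)) * ‖k‖) * ‖k‖ := by
            apply mul_le_mul hd ((norm_W_le n u).trans hu1) (norm_nonneg _) (by positivity)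
        _ = _ := by ring
    have h8 : ‖⟪k, W n (k - u)⟫_ℂ‖ ≤ (‖F r‖ + r ^ (n + 1)) * ‖k‖ ^ 2 := by
      calc ‖⟪k, W n (k - u)⟫_ℂ‖ ≤ ‖k‖ * ‖W n (k - u)‖ := norm_inner_le_norm _ _
        _ ≤ ‖k‖ * ((‖F r‖ + r ^ (n + 1)) * ‖k‖) := by
            apply mul_le_mul le_rfl ((norm_W_le n _).trans hd) (norm_nonneg _) (norm_nonneg _)
        _ = _ := by ring
    linarith
  have h9 : ‖k‖ ^ 2 = (1 - r ^ 2)⁻¹ := norm_kr_sq r h0 h1
  have h10 : 0 < 1 - r ^ 2 := by nlinarith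
  rw [e1]
  rw [h9] at h4
  have h11 := mul_le_mul_of_nonneg_right h4 h10.le
  have h12 : (‖⟪u, W n u⟫_ℂ‖ + 2 * ((‖F r‖ + r ^ (n + 1)) * (1 - r ^ 2)⁻¹)) * (1 - r ^ 2) =
      (1 - r ^ 2) * ‖⟪u, W n u⟫_ℂ‖ + 2 * (‖F r‖ + r ^ (n + 1)) := by
    field_simp
  rw [h12] at h11
  linarith

end vec

end Pool.Agent.Y267.TF
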