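import Mathlib
import Pool.Agent.Y267.TF4

/-!
# The kernel of the two symbol maps is larger than the ideal
-/

set_option autoImplicit false
open MeasureTheory Filter Topology
open scoped InnerProductSpace

namespace Pool.Agent.Y267.TF

lemma haar_ac : (@AddCircle.haarAddCircle (1 : ℝ) _) ≪ (volume : Measure (AddCircle (1 : ℝ))) := by
  have h := @AddCircle.volume_eq_smul_haarAddCircle (1 : ℝ) _
  rw [ENNReal.ofReal_one, one_smul] at h
  rw [h]

lemma gen (f : AddCircle (1 : ℝ) → ℂ) (hf : Measurable f) (h1 : ∀ x, ‖f x‖ ≤ 1) :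
    ∃ a : Lp ℂ ⊤ (volume : Measure (AddCircle (1 : ℝ))), ∀ m : ℤ,
      fourierCoeff (⇑a : AddCircle (1 : ℝ) → ℂ) m = fourierCoeff f m := by
  refine ⟨MemLp.toLp f (memLp_top_of_bound hf.aestronglyMeasurable 1 (Eventually.of_forall h1)), fun m => ?_⟩
  have h : (MemLp.toLp f (memLp_top_of_bound hf.aestronglyMeasurable 1 (Eventually.of_forall h1)) :
      AddCircle (1 : ℝ) → ℂ) =ᵐ[(volume : Measure (AddCircle (1 : ℝ)))] f := MemLp.coeFn_toLp _
  have h2 := haar_ac.ae_eq h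
  exact congrFun (fourierCoeff_congr_ae h2) m

lemma mem_gen : (fun n => Z n) ∈ NonUnitalAlgebra.adjoin ℂ
            {G : ℕ → (lp (fun _ : ℕ => ℂ) 2 →L[ℂ] lp (fun _ : ℕ => ℂ) 2) |
              ∃ a : Lp ℂ ⊤ (volume : Measure (AddCircle (1 : ℝ))),
              ∃ T : lp (fun _ : ℕ => ℂ) 2 →L[ℂ] lp (fun _ : ℕ => ℂ) 2,
                (∀ j k : ℕ, (T (lp.single 2 k (1 : ℂ) : lp (fun _ : ℕ => ℂ) 2)) j
                    = fourierCoeff (⇑a : AddCircle (1 : ℝ) → ℂ) ((j : ℤ) - (k : ℤ))) ∧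
                ∀ n, G n = P n * T * P n} := by
  set S := {G : ℕ → (lp (fun _ : ℕ => ℂ) 2 →L[ℂ] lp (fun _ : ℕ => ℂ) 2) |
              ∃ a : Lp ℂ ⊤ (volume : Measure (AddCircle (1 : ℝ))),
              ∃ T : lp (fun _ : ℕ => ℂ) 2 →L[ℂ] lp (fun _ : ℕ => ℂ) 2,
                (∀ j k : ℕ, (T (lp.single 2 k (1 : ℂ) : lp (fun _ : ℕ => ℂ) 2)) j
                    = fourierCoeff (⇑a : AddCircle (1 : ℝ) → ℂ) ((j : ℤ) - (k : ℤ))) ∧
                ∀ n, G n = P n * T * P n} with hS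
  have ha : (fun n => a n) ∈ S := by
    obtain ⟨f, hf⟩ := gen th measurable_th (fun x => (norm_th x).le)
    refine ⟨f, A, ?_, fun n => rfl⟩
    intro j k
    rw [hf]
    exact A_coord j k
  have hb : (fun n => b n) ∈ S := by
    obtain ⟨f, hf⟩ := gen (fun x => (starRingEnd ℂ) (th x)) (Complex.continuous_conj.measurable.comp measurable_th)
      (fun x => by rw [Complex.norm_conj]; exact (norm_th x).le)
    refine ⟨f, Ad, ?_, fun n => rfl⟩
    intro j k
    rw [hf, fourier_conj, neg_sub]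
    exact Ad_coord j k
  have hp : (fun n => P n) ∈ S := by
    obtain ⟨f, hf⟩ := gen (fun _ => 1) measurable_const (fun x => by simp)
    refine ⟨f, 1, ?_, ?_⟩
    · intro j k
      rw [hf]
      have h1 : (fun _ : AddCircle (1 : ℝ) => (1 : ℂ)) = fun x => (fourier 0 x : ℂ) := by
        funext x
        rw [fourier_zero]
      have h2 : fourierCoeff (fun x : AddCircle (1 : ℝ) => (fourier 0 x : ℂ)) = Pi.single 0 1 :=
        fourierCoeff_fourier 0
      rw [h1, h2, Pi.single_apply]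
      change (e k : H) j = _
      rw [e_apply]
      congr 1
      rw [sub_eq_zero]
      exact propext Nat.cast_inj.symm
    · intro n
      ext1 x
      change P n x = P n (P n x)
      rw [PP]
  have ha' := NonUnitalAlgebra.subset_adjoin ℂ ha
  have hb' := NonUnitalAlgebra.subset_adjoin ℂ hb
  have hp' := NonUnitalAlgebra.subset_adjoin ℂ hp
  have hB := sub_mem hp' (mul_mem ha' hb')
  have hC := sub_mem hp' (mul_mem hb' ha')
  exact mul_mem hB hC

lemma tendsto_r : Tendsto (fun n : ℕ => (1 - 2 / ((n : ℝ) + 1)) ^ (n + 1)) atTop (𝓝 (Real.exp (-2))) := by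
  have h := (Real.tendsto_one_add_div_pow_exp (-2)).comp (tendsto_add_atTop_nat 1)
  refine h.congr fun n => ?_
  simp only [Function.comp]
  push_cast
  congr 1
  ring

theorem no_J (K K' : H →L[ℂ] H) (hK : IsCompactOperator K) (hK' : IsCompactOperator K') (C' : ℕ → (H →L[ℂ] H))
    (hC : Tendsto (fun n => ‖C' n‖) atTop (𝓝 0))
    (hZ : ∀ n, Z n = P n * K * P n + W n * K' * W n + C' n) : False := by
  -- radii
  let r : ℕ → ℝ := fun n => 1 - 2 / ((n : ℝ) + 2)
  have hr0 : ∀ n, 0 ≤ r n := by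
    intro n
    have : 2 / ((n : ℝ) + 2) ≤ 1 := by
      rw [div_le_one (by positivity)]
      have : (0 : ℝ) ≤ n := n.cast_nonneg
      linarith
    simp only [r]; linarith
  have hr1 : ∀ n, r n < 1 := by
    intro n
    have : 0 < 2 / ((n : ℝ) + 2) := by positivity
    simp only [r]; linarith
  have hrt : Tendsto r atTop (𝓝 1) := by
    have h := (tendsto_const_div_atTop_nhds_zero_nat (2 : ℝ)).comp (tendsto_add_atTop_nat 2)
    have h2 := h.const_sub 1
    rw [sub_zero] at h2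
    refine h2.congr fun n => ?_
    simp [r]
  let s : ℕ → ℝ := fun n => Real.sqrt (1 - r n ^ 2)
  have hs2 : ∀ n, s n ^ 2 = 1 - r n ^ 2 := by
    intro n
    apply Real.sq_sqrt
    nlinarith [hr0 n, hr1 n]
  have hs0 : ∀ n, 0 ≤ s n := fun n => Real.sqrt_nonneg _
  have hst : Tendsto s atTop (𝓝 0) := by
    have h1 : Tendsto (fun n => 1 - r n ^ 2) atTop (𝓝 (1 - 1 ^ 2)) := (hrt.pow 2).const_sub 1
    have h2 := h1.sqrt
    simpa using h2
  let v : ℕ → H := fun n => (s n : ℂ) • kr (r n) (hr0 n) (hr1 n)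
  have hv : ∀ n, ‖v n‖ ≤ 1 := by
    intro n
    have h1 : ‖v n‖ ^ 2 = 1 := by
      simp only [v]
      rw [norm_smul, mul_pow, norm_kr_sq, Complex.norm_real, Real.norm_of_nonneg (hs0 n), hs2 n]
      apply mul_inv_cancel₀
      nlinarith [hr0 n, hr1 n]
    have h2 : ‖v n‖ = 1 := by
      have := norm_nonneg (v n)
      nlinarith
    exact h2.le
  have hvc : ∀ n j, ‖(v n) j‖ ≤ s n := by
    intro n j
    simp only [v]
    rw [lp.coeFn_smul, Pi.smul_apply, kr_apply, norm_smul, norm_pow, Complex.norm_real, Complex.norm_real,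
      Real.norm_of_nonneg (hs0 n), Real.norm_of_nonneg (hr0 n)]
    have : r n ^ j ≤ 1 := pow_le_one₀ (hr0 n) (hr1 n).le
    nlinarith [hs0 n]
  have hPv : ∀ j, Tendsto (fun n => (P (n + 1) (v n)) j) atTop (𝓝 0) := by
    intro j
    apply squeeze_zero_norm _ hst
    intro n
    rw [P_apply]
    split_ifs with h
    · exact hvc n j
    · rw [norm_zero]; exact hs0 n
  have hWv : ∀ j, Tendsto (fun n => (W (n + 1) (v n)) j) atTop (𝓝 0) := by
    intro j
    apply squeeze_zero_norm _ hst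
    intro n
    rw [W_apply]
    split_ifs with h
    · exact hvc n _
    · rw [norm_zero]; exact hs0 n
  have hPn : ∀ n, ‖P (n + 1) (v n)‖ ≤ 1 := fun n => (norm_P_le _ _).trans (hv n)
  have hWn : ∀ n, ‖W (n + 1) (v n)‖ ≤ 1 := fun n => (norm_W_le _ _).trans (hv n)
  have t1 := compact_null K hK (fun n => W (n + 1) (v n)) hWn hWv
  have t2 := compact_null K' hK' (fun n => P (n + 1) (v n)) hPn hPv
  have t3 := hC.comp (tendsto_add_atTop_nat 1)
  have upper : ∀ n, ‖⟪P (n + 1) (v n), Z (n + 1) (W (n + 1) (v n))⟫_ℂ‖ ≤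
      ‖K (W (n + 1) (v n))‖ + ‖K' (P (n + 1) (v n))‖ + ‖C' (n + 1)‖ := by
    intro n
    have h1 : Z (n + 1) (W (n + 1) (v n)) = P (n + 1) (K (W (n + 1) (v n))) +
        W (n + 1) (K' (P (n + 1) (v n))) + C' (n + 1) (W (n + 1) (v n)) := by
      rw [hZ (n + 1)]
      change P (n + 1) (K (P (n + 1) (W (n + 1) (v n)))) + W (n + 1) (K' (W (n + 1) (W (n + 1) (v n)))) +
        C' (n + 1) (W (n + 1) (v n)) = _
      rw [PW, WW]
    rw [h1]
    have h2 : ∀ y : H, ‖⟪P (n + 1) (v n), y⟫_ℂ‖ ≤ ‖y‖ := by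
      intro y
      calc ‖⟪P (n + 1) (v n), y⟫_ℂ‖ ≤ ‖P (n + 1) (v n)‖ * ‖y‖ := norm_inner_le_norm _ _
        _ ≤ 1 * ‖y‖ := by gcongr; exact hPn n
        _ = ‖y‖ := one_mul _
    refine (h2 _).trans ((norm_add_le _ _).trans ?_)
    refine add_le_add ((norm_add_le _ _).trans (add_le_add (norm_P_le _ _) (norm_W_le _ _))) ?_
    calc ‖C' (n + 1) (W (n + 1) (v n))‖ ≤ ‖C' (n + 1)‖ * ‖W (n + 1) (v n)‖ := (C' (n + 1)).le_opNorm _
      _ ≤ ‖C' (n + 1)‖ * 1 := by gcongr; exact hWn n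
      _ = _ := mul_one _
  have hlow : ∀ n, 2 * r n ^ (n + 1) - 2 * ‖F (r n)‖ ≤
      ‖⟪P (n + 1) (v n), Z (n + 1) (W (n + 1) (v n))⟫_ℂ‖ := by
    intro n
    have h1 := lower (r n) (hr0 n) (hr1 n) (n + 1)
    have h2 : ‖⟪P (n + 1) (v n), Z (n + 1) (W (n + 1) (v n))⟫_ℂ‖ = (1 - r n ^ 2) *
        ‖⟪P (n + 1) (kr (r n) (hr0 n) (hr1 n)), Z (n + 1) (W (n + 1) (kr (r n) (hr0 n) (hr1 n)))⟫_ℂ‖ := by
      simp only [v]
      rw [map_smul, map_smul, map_smul, inner_smul_left, inner_smul_right, norm_mul, norm_mul]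
      rw [Complex.norm_conj, Complex.norm_real, Real.norm_of_nonneg (hs0 n), ← hs2 n]
      ring
    rw [h2]
    refine le_trans ?_ h1
    have h3 : ((n + 1 : ℕ) : ℝ) + 1 = (n : ℝ) + 2 := by push_cast; ring
    rw [h3]
    have h4 : ((n : ℝ) + 2) * (1 - r n) = 2 := by
      simp only [r]
      have : (n : ℝ) + 2 ≠ 0 := by positivity
      field_simp
      ring
    have h5 : ((n : ℝ) + 2) * r n ^ (n + 1) * (1 - r n ^ 2) = 2 * (1 + r n) * r n ^ (n + 1) := by
      have : ((n : ℝ) + 2) * r n ^ (n + 1) * (1 - r n ^ 2) =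
        (((n : ℝ) + 2) * (1 - r n)) * (1 + r n) * r n ^ (n + 1) := by ring
      rw [this, h4]
    rw [h5]
    have h6 : r n ^ (n + 1 + 1) = r n * r n ^ (n + 1) := by ring
    rw [h6]
    nlinarith [norm_nonneg (F (r n))]
  have lim1 : Tendsto (fun n => 2 * r n ^ (n + 1) - 2 * ‖F (r n)‖) atTop (𝓝 (2 * Real.exp (-2) - 2 * 0)) := by
    apply Tendsto.sub
    · apply Tendsto.const_mul
      have h1 := tendsto_r.comp (tendsto_add_atTop_nat 1)
      -- r n ^ (n + 2) → exp (-2), r n → 1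
      have h2 : Tendsto (fun n => r n ^ (n + 2) / r n) atTop (𝓝 (Real.exp (-2) / 1)) := by
        apply Tendsto.div _ hrt one_ne_zero
        refine h1.congr fun n => ?_
        simp only [Function.comp, r]
        push_cast
        congr 2
        ring
      rw [div_one] at h2
      refine h2.congr' ?_
      filter_upwards [eventually_gt_atTop 0] with n hn
      have h3 : 0 < r n := by
        have h4 : (0 : ℝ) < n := by exact_mod_cast hn
        have : 2 / ((n : ℝ) + 2) < 1 := by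
          rw [div_lt_one (by positivity)]
          linarith
        simp only [r]; linarith
      rw [pow_succ, mul_div_assoc, div_self h3.ne', mul_one]
    · apply Tendsto.const_mul
      have h1 := F_tendsto.comp (tendsto_add_atTop_nat 1)
      have h2 := h1.norm
      rw [norm_zero] at h2
      refine h2.congr fun n => ?_
      simp only [Function.comp, r]
      congr 2
      push_cast
      ring
  have lim2 : Tendsto (fun n => ‖K (W (n + 1) (v n))‖ + ‖K' (P (n + 1) (v n))‖ + ‖C' (n + 1)‖) atTop (𝓝 (0 + 0 + 0)) := by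
    apply Tendsto.add (Tendsto.add _ _) t3
    · have := t1.norm; rwa [norm_zero] at this
    · have := t2.norm; rwa [norm_zero] at this
  have := le_of_tendsto_of_tendsto' lim1 lim2 (fun n => (hlow n).trans (upper n))
  have h9 := Real.exp_pos (-2)
  linarith

theorem final : 
    ¬ (∀ (P W : ℕ → (lp (fun _ : ℕ => ℂ) 2 →L[ℂ] lp (fun _ : ℕ => ℂ) 2)),
    (∀ (n : ℕ) (x : lp (fun _ : ℕ => ℂ) 2) (j : ℕ), (P n x) j = if j ≤ n then x j else 0) →
    (∀ (n : ℕ) (x : lp (fun _ : ℕ => ℂ) 2) (j : ℕ), (W n x) j = if j ≤ n then x (n - j) else 0) →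
    ∀ A : ℕ → (lp (fun _ : ℕ => ℂ) 2 →L[ℂ] lp (fun _ : ℕ => ℂ) 2),
      (∃ K K' : lp (fun _ : ℕ => ℂ) 2 →L[ℂ] lp (fun _ : ℕ => ℂ) 2,
        IsCompactOperator K ∧ IsCompactOperator K' ∧
        ∃ C : ℕ → (lp (fun _ : ℕ => ℂ) 2 →L[ℂ] lp (fun _ : ℕ => ℂ) 2),
          (∀ n, C n = P n * C n * P n) ∧
          Tendsto (fun n => ‖C n‖) atTop (𝓝 0) ∧
          ∀ n, A n = P n * K * P n + W n * K' * W n + C n)
      ↔
      ((∀ ε : ℝ, 0 < ε →
          ∃ B ∈ NonUnitalAlgebra.adjoin ℂ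
            {G : ℕ → (lp (fun _ : ℕ => ℂ) 2 →L[ℂ] lp (fun _ : ℕ => ℂ) 2) |
              ∃ a : Lp ℂ ⊤ (volume : Measure (AddCircle (1 : ℝ))),
              ∃ T : lp (fun _ : ℕ => ℂ) 2 →L[ℂ] lp (fun _ : ℕ => ℂ) 2,
                (∀ j k : ℕ, (T (lp.single 2 k (1 : ℂ) : lp (fun _ : ℕ => ℂ) 2)) j
                    = fourierCoeff (⇑a : AddCircle (1 : ℝ) → ℂ) ((j : ℤ) - (k : ℤ))) ∧
                ∀ n, G n = P n * T * P n},
            ∀ n, ‖A n - B n‖ ≤ ε) ∧
       (∃ K : lp (fun _ : ℕ => ℂ) 2 →L[ℂ] lp (fun _ : ℕ => ℂ) 2,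
          IsCompactOperator K ∧ ∀ x, Tendsto (fun n => A n x) atTop (𝓝 (K x))) ∧
       (∃ K : lp (fun _ : ℕ => ℂ) 2 →L[ℂ] lp (fun _ : ℕ => ℂ) 2,
          IsCompactOperator K ∧
          ∀ x, Tendsto (fun n => (W n * A n * W n) x) atTop (𝓝 (K x))))) := by
  intro h
  obtain ⟨K, K', hK, hK', C', -, hC, hZ⟩ := (h P W P_apply W_apply Z).2 ⟨fun ε hε => ⟨fun n => Z n, mem_gen, fun n => by
    rw [sub_self, norm_zero]; exact hε.le⟩, ⟨0, isCompactOperator_zero, fun x => Z_tendsto x⟩,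
    ⟨0, isCompactOperator_zero, fun x => WZW_tendsto x⟩⟩
  exact no_J K K' hK hK' C' hC hZ

end Pool.Agent.Y267.TF
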