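import Pool.Agent.Y267.UP2

/-!
# Arcs through the top points of the oscillating arcs are long
-/

set_option autoImplicit false

namespace Pool.Agent.Y267.UP

open Set

noncomputable def vj (n j : ℕ) : ℝ := (j : ℝ) / (2 * n + 1)

def F (n j : ℕ) : Set E3 :=
  Jf n '' Icc (vj n j) 1 ∪ ⋃ k ∈ (Finset.range (n + 1)).filter (fun k => j < 2 * k + 1), Ed n k

def G (n j : ℕ) : Set E3 :=
  (Jf n '' Icc 0 (vj n j) ∪ ⋃ k ∈ (Finset.range (n + 1)).filter (fun k => 2 * k + 1 ≤ j), Ed n k) ∪
    XS {m | m ≠ n}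

lemma isClosed_F (n j : ℕ) : IsClosed (F n j) :=
  (isClosed_Jf n _ _).union ((Finset.finite_toSet _).isClosed_biUnion (fun k _ => isClosed_Ed n k))

lemma isClosed_G (n j : ℕ) : IsClosed (G n j) :=
  ((isClosed_Jf n _ _).union
    ((Finset.finite_toSet _).isClosed_biUnion (fun k _ => isClosed_Ed n k))).union (isClosed_XS _)

lemma vj_nonneg (n j : ℕ) : 0 ≤ vj n j := by unfold vj; positivity

lemma vj_le (n j : ℕ) (hj : j ≤ 2 * n + 1) : vj n j ≤ 1 := by
  unfold vj
  rw [div_le_one (by positivity)]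
  exact_mod_cast hj

lemma vj_mono (n i j : ℕ) (h : i ≤ j) : vj n i ≤ vj n j := by
  unfold vj
  gcongr

lemma wk_eq (n k : ℕ) : wk n k = vj n (2 * k + 1) := by
  unfold wk vj
  push_cast
  rfl

lemma cover (n j : ℕ) : XS univ ⊆ F n j ∪ G n j := by
  rintro p (hp | hp)
  · right; right; left; exact hp
  · simp only [mem_iUnion] at hp
    obtain ⟨m, _, hp⟩ := hp
    by_cases hm : m = n
    · subst hm
      rcases hp with ⟨w, hw, rfl⟩ | hp
      · rcases le_total (vj m j) w with h | h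
        · left; left; exact ⟨w, ⟨h, hw.2⟩, rfl⟩
        · right; left; left; exact ⟨w, ⟨hw.1, h⟩, rfl⟩
      · simp only [mem_iUnion] at hp
        obtain ⟨k, hk, hp⟩ := hp
        rcases lt_or_ge j (2 * k + 1) with h | h
        · left; right
          simp only [mem_iUnion]
          exact ⟨k, Finset.mem_filter.2 ⟨hk, h⟩, hp⟩
        · right; left; right
          simp only [mem_iUnion]
          exact ⟨k, Finset.mem_filter.2 ⟨hk, h⟩, hp⟩
    · right; right; right
      simp only [mem_iUnion]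
      exact ⟨m, hm, hp⟩

lemma label (m : ℕ) (p : E3) (hp : p ∈ Y m) : p.2.2 = p.2.1 / (m + 1) := by
  rcases hp with ⟨w, hw, rfl⟩ | hp
  · simp only [Jf]
    rw [div_div, sq]
  · simp only [mem_iUnion] at hp
    obtain ⟨k, hk, s, hs, rfl⟩ := hp
    simp only [Ef]
    rw [div_div, sq]

lemma other (n : ℕ) (p : E3) (hp : p ∈ Y n) (hp' : p ∈ XS {m | m ≠ n}) : p.2.1 = 0 := by
  rcases hp' with ⟨x, hx, rfl⟩ | hp'
  · rfl
  · simp only [mem_iUnion] at hp'
    obtain ⟨m, hm, hp'⟩ := hp'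
    have h1 := label n p hp
    have h2 := label m p hp'
    rw [h1] at h2
    by_contra h
    rw [div_eq_div_iff (by positivity) (by positivity)] at h2
    have h3 : (m : ℝ) + 1 = n + 1 := mul_left_cancel₀ h h2
    have h4 : m = n := by
      have : (m : ℝ) = n := by linarith
      exact_mod_cast this
    exact hm h4

lemma Jf_inj (n : ℕ) (w w' : ℝ) (h : Jf n w = Jf n w') : w = w' := by
  have := congrArg (fun p : E3 => p.2.1) h
  simp only [Jf] at this
  rwa [div_left_inj' (by positivity)] at this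

lemma Jf_zero_of (n : ℕ) (w : ℝ) (h : (Jf n w).2.1 = 0) : w = 0 := by
  simp only [Jf] at h
  rcases div_eq_zero_iff.1 h with h | h
  · exact h
  · exact absurd h (by positivity)

lemma Ef_zero_of (n k : ℕ) (s : ℝ) (h : (Ef n k s).2.1 = 0) : s = 0 := by
  simp only [Ef] at h
  rcases div_eq_zero_iff.1 h with h | h
  · rcases mul_eq_zero.1 h with h | h
    · exact h
    · exact absurd h (wk_pos n k).ne'
  · exact absurd h (by positivity)

lemma Ef_zero (n k : ℕ) : Ef n k 0 = (-2, 0, 0) := by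
  simp [Ef]

lemma E_J (n k : ℕ) (s w : ℝ) (hs : s ≤ 1) (h : Ef n k s = Jf n w) : s = 1 ∧ w = wk n k := by
  have h1 := congrArg (fun p : E3 => p.1) h
  simp only [Jf, Ef] at h1
  have h2 := Real.neg_one_le_cos (Real.pi * ((2 * n + 1) * w))
  have h3 : s = 1 := by linarith
  subst h3
  rw [Ef_one] at h
  exact ⟨rfl, (Jf_inj n _ _ h).symm⟩

lemma inter (n j : ℕ) (p : E3) (hF : p ∈ F n j) (hG : p ∈ G n j) :
    p = (-2, 0, 0) ∨ p = Jf n (vj n j) := by
  rcases hF with ⟨w, hw, rfl⟩ | hF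
  · right
    rcases hG with (⟨w', hw', h⟩ | hG) | hG
    · have := Jf_inj n _ _ h
      subst this
      rw [le_antisymm hw'.2 hw.1]
    · simp only [mem_iUnion] at hG
      obtain ⟨k, hk, s, hs, h⟩ := hG
      obtain ⟨_, h2⟩ := E_J n k s w hs.2 h
      rw [h2, wk_eq] at hw ⊢
      have := vj_mono n _ _ (Finset.mem_filter.1 hk).2
      rw [le_antisymm this hw.1]
    · have hw1 : w ∈ Icc (0 : ℝ) 1 := ⟨(vj_nonneg n j).trans hw.1, hw.2⟩
      have h0 := other n _ (Or.inl ⟨w, hw1, rfl⟩) hG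
      have h1 := Jf_zero_of n w h0
      subst h1
      rw [le_antisymm hw.1 (vj_nonneg n j)]
  · simp only [mem_iUnion] at hF
    obtain ⟨k, hk, s, hs, rfl⟩ := hF
    have hk1 := Finset.mem_filter.1 hk
    rcases hG with (⟨w', hw', h⟩ | hG) | hG
    · exfalso
      obtain ⟨_, h2⟩ := E_J n k s w' hs.2 h.symm
      have h3 := hw'.2
      rw [h2, wk_eq] at h3
      have h4 : vj n j < vj n (2 * k + 1) := by
        unfold vj
        have : (j : ℝ) < ((2 * k + 1 : ℕ) : ℝ) := by exact_mod_cast hk1.2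
        gcongr
      linarith
    · left
      simp only [mem_iUnion] at hG
      obtain ⟨k', hk', s', hs', h⟩ := hG
      have hk2 := Finset.mem_filter.1 hk'
      have h1 := congrArg (fun p : E3 => p.1) h
      have h2 := congrArg (fun p : E3 => p.2.1) h
      simp only [Ef] at h1 h2
      have h3 : s' = s := by linarith
      subst h3
      rw [div_left_inj' (by positivity)] at h2
      rcases eq_or_ne s' 0 with h4 | h4
      · subst h4
        exact Ef_zero n k
      · exfalso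
        have h5 := mul_left_cancel₀ h4 h2
        unfold wk at h5
        rw [div_left_inj' (by positivity)] at h5
        have h6 : k' = k := by
          have : (k' : ℝ) = k := by linarith
          exact_mod_cast this
        subst h6
        exact absurd hk1.2 (not_lt.2 hk2.2)
    · left
      have hp : Ef n k s ∈ Y n := by
        right
        simp only [mem_iUnion]
        exact ⟨k, hk1.1, s, hs, rfl⟩
      have h0 := other n _ hp hG
      have h1 := Ef_zero_of n k s h0
      subst h1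
      exact Ef_zero n k

/-- One step down the oscillating arc. -/
lemma step (f : ℝ → E3) (hf : Continuous f) (hX : ∀ t, f t ∈ XS univ) (h0 : f 0 = (-2, 0, 0))
    (hinj : InjOn f (Icc 0 1)) (n : ℕ) (σ : ℝ) (hσ : σ ∈ Icc (0 : ℝ) 1)
    (hfσ : f σ = Jf n (vj n (2 * n + 1))) (j : ℕ) (hj : j < 2 * n + 1) (s : ℝ)
    (hs : s ∈ Icc σ 1) (hfs : f s = Jf n (vj n j)) :
    ∃ s' ∈ Icc σ s, f s' = Jf n (vj n (j + 1)) := by
  have hpre : IsPreconnected (Icc σ s) := isPreconnected_Icc
  rw [isPreconnected_closed_iff] at hpre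
  obtain ⟨s', hs', hF, hG⟩ := hpre (f ⁻¹' F n (j + 1)) (f ⁻¹' G n (j + 1))
    ((isClosed_F _ _).preimage hf) ((isClosed_G _ _).preimage hf)
    (fun t _ => cover n (j + 1) (hX t))
    ⟨σ, left_mem_Icc.2 hs.1, by
      show f σ ∈ F n (j + 1)
      rw [hfσ]
      left
      exact ⟨_, ⟨vj_mono n _ _ hj, vj_le n _ le_rfl⟩, rfl⟩⟩
    ⟨s, right_mem_Icc.2 hs.1, by
      show f s ∈ G n (j + 1)
      rw [hfs]
      left; left
      exact ⟨_, ⟨vj_nonneg n j, vj_mono n _ _ (Nat.le_succ j)⟩, rfl⟩⟩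
  refine ⟨s', hs', ?_⟩
  rcases inter n (j + 1) _ hF hG with h | h
  · exfalso
    have h1 : s' = 0 := hinj ⟨hσ.1.trans hs'.1, hs'.2.trans hs.2⟩ (by norm_num) (h.trans h0.symm)
    have h2 : σ = 0 := le_antisymm (h1 ▸ hs'.1) hσ.1
    rw [h2, h0] at hfσ
    have h3 := congrArg (fun p : E3 => p.1) hfσ
    simp only [Jf] at h3
    have h4 := Real.neg_one_le_cos (Real.pi * ((2 * (n : ℝ) + 1) * vj n (2 * n + 1)))
    linarith
  · exact h

/-- The times of passage through the marked points. -/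
lemma times (f : ℝ → E3) (hf : Continuous f) (hX : ∀ t, f t ∈ XS univ) (h0 : f 0 = (-2, 0, 0))
    (h1 : f 1 = (1, 0, 0)) (hinj : InjOn f (Icc 0 1)) (n : ℕ) (σ : ℝ) (hσ : σ ∈ Icc (0 : ℝ) 1)
    (hfσ : f σ = Jf n (vj n (2 * n + 1))) :
    ∃ T : ℕ → ℝ, (∀ j ≤ 2 * n + 1, T j ∈ Icc (0 : ℝ) 1 ∧ f (T j) = Jf n (vj n j)) ∧
      ∀ j < 2 * n + 1, T (j + 1) ≤ T j := by
  have hex : ∀ j ≤ 2 * n + 1, ∃ s ∈ Icc σ 1, f s = Jf n (vj n j) := by
    intro j
    induction j with
    | zero =>
      intro _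
      refine ⟨1, right_mem_Icc.2 hσ.2, ?_⟩
      rw [h1]
      simp [Jf, vj]
    | succ j ih =>
      intro hj
      obtain ⟨s, hs, hfs⟩ := ih (Nat.le_of_succ_le hj)
      obtain ⟨s', hs', h⟩ := step f hf hX h0 hinj n σ hσ hfσ j hj s hs hfs
      exact ⟨s', ⟨hs'.1, hs'.2.trans hs.2⟩, h⟩
  classical
  let T : ℕ → ℝ := fun j => if h : j ≤ 2 * n + 1 then (hex j h).choose else 0
  have hT : ∀ j ≤ 2 * n + 1, T j ∈ Icc σ 1 ∧ f (T j) = Jf n (vj n j) := by
    intro j hj
    have := (hex j hj).choose_spec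
    simp only [T, dif_pos hj]
    exact this
  refine ⟨T, fun j hj => ⟨⟨hσ.1.trans (hT j hj).1.1, (hT j hj).1.2⟩, (hT j hj).2⟩, ?_⟩
  intro j hj
  obtain ⟨hs, hfs⟩ := hT j hj.le
  obtain ⟨s', hs', h⟩ := step f hf hX h0 hinj n σ hσ hfσ j hj (T j) hs hfs
  have h2 := hT (j + 1) hj
  have h3 : s' = T (j + 1) :=
    hinj ⟨hσ.1.trans hs'.1, hs'.2.trans hs.2⟩ ⟨hσ.1.trans h2.1.1, h2.1.2⟩ (h.trans h2.2.symm)
  rw [← h3]
  exact hs'.2

lemma mark_dist (n j : ℕ) (p q : X) (hp : p.1 = Jf n (vj n j)) (hq : q.1 = Jf n (vj n (j + 1))) :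
    2 ≤ dist p q := by
  rw [Subtype.dist_eq, hp, hq, Prod.dist_eq]
  refine le_trans ?_ (le_max_left _ _)
  have h : ∀ i : ℕ, (Jf n (vj n i)).1 = (-1) ^ i := by
    intro i
    simp only [Jf]
    have : (2 * (n : ℝ) + 1) * vj n i = i := by
      unfold vj
      field_simp
    rw [this, mul_comm, Real.cos_nat_mul_pi]
  rw [h, h, Real.dist_eq]
  rcases neg_one_pow_eq_or ℝ j with h | h
  · rw [pow_succ, h]; norm_num
  · rw [pow_succ, h]; norm_num

lemma exists_piece (N : ℕ) (t : Fin (N + 1) → unitInterval) (h0 : t 0 = 0)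
    (h1 : t (Fin.last N) = 1) (s : unitInterval) :
    ∃ i : Fin N, s ∈ Icc (t i.castSucc) (t i.succ) := by
  by_contra hcon
  push Not at hcon
  have : ∀ i : Fin (N + 1), t i ≤ s ∧ t i ≠ 1 ∨ t i ≤ s ∧ s = 1 := by
    intro i
    induction i using Fin.induction with
    | zero =>
      rw [h0]
      left
      exact ⟨s.2.1, zero_ne_one⟩
    | succ i ih =>
      have h2 := hcon i
      have h3 : t i.castSucc ≤ s := by
        rcases ih with h | h <;> exact h.1
      have h4 : t i.succ < s := by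
        by_contra h5
        exact h2 ⟨h3, not_lt.1 h5⟩
      left
      exact ⟨h4.le, (h4.trans_le s.2.2).ne⟩
  rcases Nat.eq_zero_or_pos N with hN | hN
  · subst hN
    have : (0 : unitInterval) = 1 := by rw [← h0, ← h1]; rfl
    exact zero_ne_one this
  · rcases this (Fin.last N) with h | h
    · exact h.2 h1
    · obtain ⟨M, rfl⟩ : ∃ M, N = M + 1 := ⟨N - 1, by omega⟩
      have h5 := hcon (Fin.last M)
      have h6 := this (Fin.last M).castSucc
      have h7 : t (Fin.last M).castSucc ≤ s := by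
        rcases h6 with h | h <;> exact h.1
      apply h5
      refine ⟨h7, ?_⟩
      rw [Fin.succ_last, h1]
      exact s.2.2

/-- An injective path from `a` to `b` through the top point of `J n` has no subdivision into few
pieces of diameter at most `1`. -/
lemma long (n N : ℕ) (hN : N < 2 * n + 2) (p : Path ptA ptB) (hp : Function.Injective p)
    (hx : ∃ σ, (p σ).1 = Jf n (vj n (2 * n + 1))) :
    ¬ ∃ t : Fin (N + 1) → unitInterval, t 0 = 0 ∧ t (Fin.last N) = 1 ∧ StrictMono t ∧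
      ∀ i : Fin N, Metric.diam (⇑p '' Set.Icc (t i.castSucc) (t i.succ)) ≤ 1 := by
  rintro ⟨t, h0, h1, -, hdiam⟩
  obtain ⟨σ, hσ⟩ := hx
  have hext : ∀ s (hs : s ∈ Icc (0 : ℝ) 1), p.extend s = p ⟨s, hs⟩ := fun s hs =>
    Path.extend_apply p hs
  obtain ⟨T, hT, hTmono⟩ := times (fun s => (p.extend s).1)
    (continuous_subtype_val.comp p.continuous_extend) (fun s => (p.extend s).2)
    (by show (p.extend 0).1 = _; rw [Path.extend_zero]; rfl)
    (by show (p.extend 1).1 = _; rw [Path.extend_one]; rfl)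
    (by
      intro s hs s' hs' h
      have h' : p.extend s = p.extend s' := Subtype.ext h
      rw [hext s hs, hext s' hs'] at h'
      exact congrArg Subtype.val (hp h'))
    n σ.1 σ.2 (by
      show (p.extend σ.1).1 = _
      rw [hext σ.1 σ.2]
      exact hσ)
  have hTI : ∀ j ≤ 2 * n + 1, T j ∈ Icc (0 : ℝ) 1 := fun j hj => (hT j hj).1
  have hidx : ∀ j : Fin (2 * n + 2), ∃ i : Fin N,
      (⟨T j, hTI j (Nat.lt_succ_iff.1 j.2)⟩ : unitInterval) ∈ Icc (t i.castSucc) (t i.succ) :=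
    fun j => exists_piece N t h0 h1 _
  choose idx hidx using hidx
  obtain ⟨j, j', hne, hjj⟩ := Fintype.exists_ne_map_eq_of_card_lt idx (by simpa using hN)
  have hanti : ∀ a b : ℕ, a ≤ b → b ≤ 2 * n + 1 → T b ≤ T a := by
    intro a b hab
    induction b, hab using Nat.le_induction with
    | base => intro _; exact le_rfl
    | succ b hab ih =>
      intro hb
      exact (hTmono b hb).trans (ih (Nat.le_of_succ_le hb))
  wlog hlt : j < j' generalizing j j'
  · exact this j' j hne.symm hjj.symm (lt_of_le_of_ne (not_lt.1 hlt) hne.symm)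
  have hj1 : (j : ℕ) + 1 ≤ j' := hlt
  have hj' : (j' : ℕ) ≤ 2 * n + 1 := Nat.lt_succ_iff.1 j'.2
  have hj1' : (j : ℕ) + 1 ≤ 2 * n + 1 := hj1.trans hj'
  have hjn : (j : ℕ) ≤ 2 * n + 1 := (Nat.le_succ _).trans hj1'
  have a1 := hidx j
  have a2 := hidx j'
  rw [← hjj] at a2
  have a3 : (⟨T (j + 1), hTI _ hj1'⟩ : unitInterval) ∈ Icc (t (idx j).castSucc) (t (idx j).succ) := by
    constructor
    · refine le_trans a2.1 ?_
      exact hanti _ _ hj1 hj'
    · refine le_trans ?_ a1.2
      exact hanti _ _ (Nat.le_succ _) hj1'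
  have hb : Bornology.IsBounded (⇑p '' Set.Icc (t (idx j).castSucc) (t (idx j).succ)) :=
    (isCompact_univ (X := X)).isBounded.subset (subset_univ _)
  have d1 := Metric.dist_le_diam_of_mem hb (mem_image_of_mem p a1) (mem_image_of_mem p a3)
  have d2 := hdiam (idx j)
  have m1 := (hT j hjn).2
  have m2 := (hT (j + 1) hj1').2
  rw [hext _ (hTI j hjn)] at m1
  rw [hext _ (hTI _ hj1')] at m2
  have d3 := mark_dist n j _ _ m1 m2
  linarith

lemma exists_arc (n : ℕ) : ∃ p : Path ptA ptB, Function.Injective p ∧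
    ∃ σ, (p σ).1 = Jf n (vj n (2 * n + 1)) := by
  have hw : wk n n = 1 := by
    unfold wk
    exact div_self (by positivity)
  have hv : vj n (2 * n + 1) = 1 := by
    rw [← wk_eq, hw]
  let x : X := ⟨Jf n 1, mem_X_J n 1 (by norm_num)⟩
  let p1 : Path ptA x :=
    { toFun := fun s => ⟨Ef n n s, mem_X_E n n le_rfl s s.2⟩
      continuous_toFun := by
        refine Continuous.subtype_mk ?_ _
        exact (continuous_Ef n n).comp continuous_subtype_val
      source' := by
        ext1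
        simp [ptA, Ef_zero]
      target' := by
        ext1
        show Ef n n ((1 : unitInterval) : ℝ) = Jf n 1
        rw [show ((1 : unitInterval) : ℝ) = 1 from rfl, Ef_one, hw] }
  let p2 : Path x ptB :=
    { toFun := fun s => ⟨Jf n (1 - s), mem_X_J n _ ⟨by linarith [s.2.2], by linarith [s.2.1]⟩⟩
      continuous_toFun := by
        refine Continuous.subtype_mk ?_ _
        exact (continuous_Jf n).comp (continuous_const.sub continuous_subtype_val)
      source' := by
        ext1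
        simp [x]
      target' := by
        ext1
        simp [ptB, Jf] }
  have e1 : ∀ s, (p1 s).1 = Ef n n s := fun s => rfl
  have e2 : ∀ s, (p2 s).1 = Jf n (1 - s) := fun s => rfl
  refine ⟨p1.trans p2, ?_, ⟨⟨1 / 2, by norm_num, by norm_num⟩, ?_⟩⟩
  · have key : ∀ s t : unitInterval, (s : ℝ) ≤ 1 / 2 → ¬ (t : ℝ) ≤ 1 / 2 →
        (p1.trans p2) s ≠ (p1.trans p2) t := by
      intro s t hs ht h
      rw [Path.trans_apply, Path.trans_apply, dif_pos hs, dif_neg ht] at h
      have h' := congrArg Subtype.val h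
      rw [e1, e2] at h'
      obtain ⟨h3, h4⟩ := E_J n n _ _ (by simp only; linarith) h'
      simp only at h3 h4
      rw [hw] at h4
      apply ht
      linarith
    intro s t h
    by_cases hs : (s : ℝ) ≤ 1 / 2
    · by_cases ht : (t : ℝ) ≤ 1 / 2
      · rw [Path.trans_apply, Path.trans_apply, dif_pos hs, dif_pos ht] at h
        have h' := congrArg Subtype.val h
        rw [e1, e1] at h'
        have h1 := congrArg (fun p : E3 => p.1) h'
        simp only [Ef] at h1
        ext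
        linarith
      · exact absurd h (key s t hs ht)
    · by_cases ht : (t : ℝ) ≤ 1 / 2
      · exact absurd h.symm (key t s ht hs)
      · rw [Path.trans_apply, Path.trans_apply, dif_neg hs, dif_neg ht] at h
        have h' := congrArg Subtype.val h
        rw [e2, e2] at h'
        have h1 := Jf_inj n _ _ h'
        simp only at h1
        ext
        linarith
  · rw [Path.trans_apply, hv]
    simp [x]

theorem main :
    ¬ (∀ (X : Type) [MetricSpace X] [CompactSpace X] [ConnectedSpace X],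
      (∀ a b : X, ∃ P : Set (Path a b),
          (∀ ε : ℝ, ε > 0 → ∃ n : ℕ, ∀ p ∈ P, ∃ t : Fin (n + 1) → unitInterval,
              t 0 = 0 ∧ t (Fin.last n) = 1 ∧ StrictMono t ∧
              ∀ i : Fin n, Metric.diam (⇑p '' Set.Icc (t i.castSucc) (t i.succ)) ≤ ε) ∧
          (⋃ p ∈ P, Set.range ⇑p) = Set.univ) →
      (∀ a b : X, ∃ P : Set (Path a b),
          (∀ p ∈ P, Function.Injective ⇑p) ∧
          (∀ ε : ℝ, ε > 0 → ∃ n : ℕ, ∀ p ∈ P, ∃ t : Fin (n + 1) → unitInterval,
              t 0 = 0 ∧ t (Fin.last n) = 1 ∧ StrictMono t ∧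
              ∀ i : Fin n, Metric.diam (⇑p '' Set.Icc (t i.castSucc) (t i.succ)) ≤ ε) ∧
          (⋃ p ∈ P, Set.range ⇑p) =
            ⋃ (q : Path a b) (_ : Function.Injective ⇑q), Set.range ⇑q)) := by
  intro h
  obtain ⟨P, hinj, hunif, hP⟩ := h X (fun a b => unif_connected 8 ptA conn_all a b) ptA ptB
  obtain ⟨N, hN⟩ := hunif 1 one_pos
  obtain ⟨q, hq, σ, hσ⟩ := exists_arc N
  have hmem : q σ ∈ ⋃ p ∈ P, Set.range ⇑p := by
    rw [hP]
    simp only [mem_iUnion]
    exact ⟨q, hq, σ, rfl⟩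
  simp only [mem_iUnion] at hmem
  obtain ⟨p, hp, τ, hτ⟩ := hmem
  exact long N N (by omega) p (hinj p hp) ⟨τ, by rw [hτ, hσ]⟩ (hN p hp)

end Pool.Agent.Y267.UP
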