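import Pool.Agent.Y267.KF1
import Pool.Agent.Helper448.VanKampen

/-!
# No plane continuum maps monotonely onto the complete graph on five vertices
-/

set_option autoImplicit false

namespace Pool.Agent.Y267.KF

open Set Topology

/-- Preimages of closed preconnected sets under maps of compact spaces with preconnected fibres. -/
lemma preimage_preconn {S Z : Type} [TopologicalSpace S] [TopologicalSpace Z] [CompactSpace S]
    [T2Space Z] (f : S → Z) (hf : Continuous f) (hs : Function.Surjective f)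
    (hfib : ∀ y, IsPreconnected (f ⁻¹' {y})) (C : Set Z) (hC : IsClosed C)
    (hCc : IsPreconnected C) : IsPreconnected (f ⁻¹' C) := by
  rw [isPreconnected_closed_iff] at hCc ⊢
  intro T1 T2 h1 h2 hcov hne1 hne2
  have hcl : ∀ T, IsClosed T → IsClosed (f '' (f ⁻¹' C ∩ T)) := by
    intro T hT
    exact (((hC.preimage hf).inter hT).isCompact.image hf).isClosed
  obtain ⟨y, hyC, ⟨x1, hx1, hxy1⟩, ⟨x2, hx2, hxy2⟩⟩ := hCc (f '' (f ⁻¹' C ∩ T1))
    (f '' (f ⁻¹' C ∩ T2)) (hcl T1 h1) (hcl T2 h2)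
    (by
      intro y hy
      obtain ⟨x, rfl⟩ := hs y
      rcases hcov hy with h | h
      · exact Or.inl ⟨x, ⟨hy, h⟩, rfl⟩
      · exact Or.inr ⟨x, ⟨hy, h⟩, rfl⟩)
    (by
      obtain ⟨x, hx, hx'⟩ := hne1
      exact ⟨f x, hx, ⟨x, ⟨hx, hx'⟩, rfl⟩⟩)
    (by
      obtain ⟨x, hx, hx'⟩ := hne2
      exact ⟨f x, hx, ⟨x, ⟨hx, hx'⟩, rfl⟩⟩)
  have hfy := hfib y
  rw [isPreconnected_closed_iff] at hfy
  have hsub : f ⁻¹' {y} ⊆ f ⁻¹' C := by
    intro x hx
    have : f x = y := hx
    show f x ∈ C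
    rw [this]
    exact hyC
  obtain ⟨x, hx, hx'⟩ := hfy T1 T2 h1 h2 (hsub.trans hcov) ⟨x1, hxy1, hx1.2⟩ ⟨x2, hxy2, hx2.2⟩
  exact ⟨x, hsub hx, hx'⟩

lemma thick_joined (s : Set ℂ) (hs : IsConnected s) (δ : ℝ) (hδ : 0 < δ) (x y : ℂ) (hx : x ∈ s)
    (hy : y ∈ s) : JoinedIn (Metric.thickening δ s) x y := by
  have hc : IsConnected (Metric.thickening δ s) := by
    rw [← add_ball_zero]
    have hb : IsConnected (Metric.ball (0 : ℂ) δ) :=
      (convex_ball 0 δ).isConnected ⟨0, Metric.mem_ball_self hδ⟩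
    have := (hs.prod hb).image (fun p : ℂ × ℂ => p.1 + p.2) continuous_add.continuousOn
    rwa [Set.image_prod] at this
  have hp : IsPathConnected (Metric.thickening δ s) :=
    (Metric.isOpen_thickening.isConnected_iff_isPathConnected).1 hc
  exact hp.joinedIn x (Metric.self_subset_thickening hδ s hx) y
    (Metric.self_subset_thickening hδ s hy)

/-- The complete graph on five vertices is not a monotone image of a plane continuum. -/
lemma no_map (S : Set ℂ) (hS : IsCompact S) (f : S → Y) (hf : Continuous f)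
    (hs : Function.Surjective f) (hfib : ∀ y, IsPreconnected (f ⁻¹' {y})) : False := by
  have : CompactSpace S := isCompact_iff_compactSpace.1 hS
  choose p hp using fun a : Fin 5 => hs (vt a)
  let P : Fin 5 → Fin 5 → Set ℂ := fun a b => Subtype.val '' (f ⁻¹' E a b)
  have hPc : ∀ a b, IsCompact (P a b) := fun a b =>
    (((isClosed_E a b).preimage hf).isCompact).image continuous_subtype_val
  have hpm : ∀ a b, (p a).1 ∈ P a b := fun a b => ⟨p a, by
    show f (p a) ∈ E a b
    rw [hp]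
    exact vt_mem a b, rfl⟩
  have hpm' : ∀ a b, (p b).1 ∈ P a b := fun a b => ⟨p b, by
    show f (p b) ∈ E a b
    rw [hp]
    exact vt_mem' a b, rfl⟩
  have hPn : ∀ a b, IsConnected (P a b) := fun a b =>
    ⟨⟨_, hpm a b⟩, (preimage_preconn f hf hs hfib (E a b) (isClosed_E a b) (preconn_E a b)).image _
      continuous_subtype_val.continuousOn⟩
  have hPd : ∀ q : Fin 5 × Fin 5 × Fin 5 × Fin 5, ∃ δ > 0,
      (q.1 ≠ q.2.2.1 ∧ q.1 ≠ q.2.2.2 ∧ q.2.1 ≠ q.2.2.1 ∧ q.2.1 ≠ q.2.2.2) →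
      Disjoint (Metric.thickening δ (P q.1 q.2.1)) (Metric.thickening δ (P q.2.2.1 q.2.2.2)) := by
    rintro ⟨a, b, c, d⟩
    by_cases h : a ≠ c ∧ a ≠ d ∧ b ≠ c ∧ b ≠ d
    · have hd : Disjoint (P a b) (P c d) := by
        rw [Set.disjoint_left]
        rintro _ ⟨x, hx, rfl⟩ ⟨y, hy, hxy⟩
        have : y = x := Subtype.ext hxy
        subst this
        exact Set.disjoint_left.1 (disjoint_E a b c d h.1 h.2.1 h.2.2.1 h.2.2.2) hx hy
      obtain ⟨δ, hδ, hdis⟩ := hd.exists_thickenings (hPc a b) (hPc c d).isClosed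
      exact ⟨δ, hδ, fun _ => hdis⟩
    · exact ⟨1, one_pos, fun h' => absurd h' h⟩
  choose δ hδ0 hδ using hPd
  have hne : (Finset.univ : Finset (Fin 5 × Fin 5 × Fin 5 × Fin 5)).Nonempty := Finset.univ_nonempty
  set ε := Finset.univ.inf' hne δ with hε
  have hε0 : 0 < ε := by
    rw [hε, Finset.lt_inf'_iff]
    exact fun i _ => hδ0 i
  have hεle : ∀ q, ε ≤ δ q := fun q => Finset.inf'_le _ (Finset.mem_univ q)
  refine Pool.Agent.Helper448.VanKampen.k5_joined (fun a => (p a).1)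
    (fun a b => Metric.thickening ε (P a b)) ?_ ?_
  · intro a b _
    exact thick_joined _ (hPn a b) ε hε0 _ _ (hpm a b) (hpm' a b)
  · intro a b c d _ _ h1 h2 h3 h4
    have h := hδ (a, b, c, d) ⟨h1, h2, h3, h4⟩
    exact h.mono (Metric.thickening_mono (hεle _) _) (Metric.thickening_mono (hεle _) _)

theorem main :
    ¬ (∀ (Y : Type) [TopologicalSpace Y] [TopologicalSpace.MetrizableSpace Y] [CompactSpace Y]
      [ConnectedSpace Y] [LocallyConnectedSpace Y] [Nontrivial Y],
      (∀ K : Set Y, IsClosed K → IsConnected K → (∀ p ∈ K, IsPreconnected (K \ {p})) →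
        ∀ L : Set Y, L ⊆ K → IsClosed L → IsConnected L → L.Nontrivial →
          ∃ U : Set Y, IsOpen U ∧ (U ∩ K).Nonempty ∧ U ∩ K ⊆ L) →
      ∃ (S : Set (EuclideanSpace ℝ (Fin 2))) (f : ↥S → Y),
        IsCompact S ∧ IsConnected S ∧ Continuous f ∧ IsOpenMap f ∧ Function.Surjective f ∧
        ∀ y : Y,
          IsConnected (Subtype.val '' (f ⁻¹' {y})) ∧
          (Subtype.val '' (f ⁻¹' {y})).Nontrivial ∧
          ∃ A B : Set (EuclideanSpace ℝ (Fin 2)),
            IsClosed A ∧ IsConnected A ∧ IsClosed B ∧ IsConnected B ∧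
            A ⊂ Subtype.val '' (f ⁻¹' {y}) ∧ B ⊂ Subtype.val '' (f ⁻¹' {y}) ∧
            A ∪ B = Subtype.val '' (f ⁻¹' {y})) := by
  intro h
  obtain ⟨S, f, hS, -, hf, -, hs, hfib⟩ := h Y (by
    intro K _ _ _ L hLK _ hL hn
    obtain ⟨x, hx⟩ := interior_nonempty L hL hn
    exact ⟨interior L, isOpen_interior, ⟨x, hx, hLK (interior_subset hx)⟩,
      fun y hy => interior_subset hy.1⟩)
  let e : EuclideanSpace ℝ (Fin 2) ≃ₜ ℂ := Complex.orthonormalBasisOneI.repr.symm.toHomeomorph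
  let g : (e '' S : Set ℂ) → S := fun z => ⟨e.symm z.1, by
    obtain ⟨x, hx, hxz⟩ := z.2
    rw [← hxz, Homeomorph.symm_apply_apply]
    exact hx⟩
  have hg : Continuous g := by
    refine Continuous.subtype_mk ?_ _
    exact e.symm.continuous.comp continuous_subtype_val
  have hgs : Function.Surjective g := by
    intro x
    refine ⟨⟨e x.1, x.1, x.2, rfl⟩, ?_⟩
    ext1
    simp [g]
  let g' : S → (e '' S : Set ℂ) := fun x => ⟨e x.1, x.1, x.2, rfl⟩
  have hg' : Continuous g' := by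
    refine Continuous.subtype_mk ?_ _
    exact e.continuous.comp continuous_subtype_val
  refine no_map (e '' S) (hS.image e.continuous) (f ∘ g) (hf.comp hg) (hs.comp hgs) ?_
  intro y
  have h1 : IsPreconnected (f ⁻¹' {y}) :=
    (IsInducing.subtypeVal.isPreconnected_image).1 (hfib y).1.isPreconnected
  have h2 : (f ∘ g) ⁻¹' {y} = g' '' (f ⁻¹' {y}) := by
    ext z
    constructor
    · intro hz
      refine ⟨g z, hz, ?_⟩
      ext1
      simp [g, g']
    · rintro ⟨x, hx, rfl⟩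
      have : g (g' x) = x := by
        ext1
        simp [g, g']
      show f (g (g' x)) = y
      rw [this]
      exact hx
  rw [h2]
  exact h1.image _ hg'.continuousOn

end Pool.Agent.Y267.KF
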