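import Mathlib

/-!
# The complete graph on five vertices as a metric continuum
-/

set_option autoImplicit false

namespace Pool.Agent.Y267.KF

open Set Topology

/-- The complete graph on five vertices, realised in the standard simplex. -/
def YS : Set (Fin 5 → ℝ) :=
  {x | (∀ i, 0 ≤ x i) ∧ ∑ i, x i = 1 ∧ ∃ a b, ∀ i, i ≠ a → i ≠ b → x i = 0}

/-- A closed edge. -/
def ES (a b : Fin 5) : Set (Fin 5 → ℝ) :=
  {x | (∀ i, 0 ≤ x i) ∧ ∑ i, x i = 1 ∧ ∀ i, i ≠ a → i ≠ b → x i = 0}

lemma YS_eq : YS = ⋃ a, ⋃ b, ES a b := by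
  ext x
  simp only [YS, ES, mem_ofPred_eq, mem_iUnion]
  constructor
  · rintro ⟨h1, h2, a, b, h3⟩
    exact ⟨a, b, h1, h2, h3⟩
  · rintro ⟨a, b, h1, h2, h3⟩
    exact ⟨h1, h2, a, b, h3⟩

lemma isClosed_ES (a b : Fin 5) : IsClosed (ES a b) := by
  have : ES a b = {x | ∀ i, 0 ≤ x i} ∩ ({x | ∑ i, x i = 1} ∩ {x | ∀ i, i ≠ a → i ≠ b → x i = 0}) := by
    ext x; simp [ES]
  rw [this]
  refine IsClosed.inter ?_ (IsClosed.inter ?_ ?_)
  · simp only [ofPred_forall]
    exact isClosed_iInter fun i => isClosed_le continuous_const (continuous_apply i)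
  · exact isClosed_eq (by fun_prop) continuous_const
  · simp only [ofPred_forall]
    exact isClosed_iInter fun i => isClosed_iInter fun _ => isClosed_iInter fun _ =>
      isClosed_eq (continuous_apply i) continuous_const

lemma convex_ES (a b : Fin 5) : Convex ℝ (ES a b) := by
  intro x hx y hy s t hs ht hst
  refine ⟨fun i => ?_, ?_, fun i hia hib => ?_⟩
  · have := hx.1 i
    have := hy.1 i
    simp only [Pi.add_apply, Pi.smul_apply, smul_eq_mul]
    positivity
  · simp only [Pi.add_apply, Pi.smul_apply, smul_eq_mul]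
    rw [Finset.sum_add_distrib, ← Finset.mul_sum, ← Finset.mul_sum, hx.2.1, hy.2.1]
    linarith
  · simp only [Pi.add_apply, Pi.smul_apply, smul_eq_mul]
    rw [hx.2.2 i hia hib, hy.2.2 i hia hib]
    ring

lemma ES_sub (a b : Fin 5) : ES a b ⊆ YS := by
  rw [YS_eq]
  exact subset_iUnion_of_subset a (subset_iUnion_of_subset b subset_rfl)

lemma isClosed_YS : IsClosed YS := by
  rw [YS_eq]
  exact isClosed_iUnion_of_finite fun a => isClosed_iUnion_of_finite fun b => isClosed_ES a b

lemma isCompact_YS : IsCompact YS := by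
  refine (isCompact_Icc (a := (0 : Fin 5 → ℝ)) (b := 1)).of_isClosed_subset isClosed_YS ?_
  rintro x ⟨h1, h2, _⟩
  refine ⟨h1, fun i => ?_⟩
  have := Finset.single_le_sum (f := x) (fun j _ => h1 j) (Finset.mem_univ i)
  simpa [h2] using this

/-- The continuum. -/
abbrev Y : Type := {x : Fin 5 → ℝ // x ∈ YS}

instance : CompactSpace Y := isCompact_iff_compactSpace.1 isCompact_YS

/-- The vertices. -/
def vtS (a : Fin 5) : Fin 5 → ℝ := Pi.single a 1

lemma vtS_mem (a b : Fin 5) : vtS a ∈ ES a b := by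
  refine ⟨fun i => ?_, ?_, fun i hia _ => ?_⟩
  · unfold vtS
    by_cases h : i = a
    · subst h; simp
    · simp [h]
  · unfold vtS
    simp
  · unfold vtS
    simp [hia]

lemma ES_symm (a b : Fin 5) : ES a b = ES b a := by
  ext x
  simp only [ES, mem_ofPred_eq]
  constructor
  · rintro ⟨h1, h2, h3⟩
    exact ⟨h1, h2, fun i h h' => h3 i h' h⟩
  · rintro ⟨h1, h2, h3⟩
    exact ⟨h1, h2, fun i h h' => h3 i h' h⟩

lemma vtS_mem' (a b : Fin 5) : vtS b ∈ ES a b := by
  rw [ES_symm]
  exact vtS_mem b a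

/-- Preconnectedness in the subtype. -/
lemma preconn_iff (t : Set Y) : IsPreconnected t ↔ IsPreconnected (Subtype.val '' t) :=
  (IsInducing.subtypeVal.isPreconnected_image).symm

/-- closed edges in the subtype -/
def E (a b : Fin 5) : Set Y := {x | x.1 ∈ ES a b}

lemma isClosed_E (a b : Fin 5) : IsClosed (E a b) := (isClosed_ES a b).preimage continuous_subtype_val

lemma preconn_E (a b : Fin 5) : IsPreconnected (E a b) := by
  rw [preconn_iff]
  have : Subtype.val '' (E a b) = ES a b := by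
    ext x
    constructor
    · rintro ⟨y, hy, rfl⟩; exact hy
    · intro hx; exact ⟨⟨x, ES_sub a b hx⟩, hx, rfl⟩
  rw [this]
  exact (convex_ES a b).isPreconnected

def vt (a : Fin 5) : Y := ⟨vtS a, ES_sub a a (vtS_mem a a)⟩

lemma vt_mem (a b : Fin 5) : vt a ∈ E a b := vtS_mem a b

lemma vt_mem' (a b : Fin 5) : vt b ∈ E a b := vtS_mem' a b

instance : Nontrivial Y := by
  refine ⟨vt 0, vt 1, fun h => ?_⟩
  have := congrFun (congrArg Subtype.val h) 0
  simp [vt, vtS] at this

instance : ConnectedSpace Y := by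
  have : PreconnectedSpace Y := by
    refine ⟨isPreconnected_of_forall (vt 0) ?_⟩
    intro z _
    obtain ⟨h1, h2, a, b, h3⟩ := z.2
    have hab : z.1 ∈ ES a b := ⟨h1, h2, h3⟩
    exact ⟨E 0 a ∪ E a b, subset_univ _, Or.inl (vt_mem 0 a), Or.inr hab,
      (preconn_E 0 a).union (vt a) (vt_mem' 0 a) (vt_mem a b) (preconn_E a b)⟩
  exact { toNonempty := ⟨vt 0⟩ }

lemma segment_sub (x z : Fin 5 → ℝ) (hx : x ∈ YS) (hz : z ∈ YS) (h : ∀ i, x i ≠ 0 → z i ≠ 0) :
    segment ℝ x z ⊆ YS := by
  obtain ⟨h1, h2, a, b, h3⟩ := hz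
  have hx' : x ∈ ES a b := by
    refine ⟨hx.1, hx.2.1, fun i hia hib => ?_⟩
    by_contra hne
    exact h i hne (h3 i hia hib)
  have hz' : z ∈ ES a b := ⟨h1, h2, h3⟩
  exact ((convex_ES a b).segment_subset hx' hz').trans (ES_sub a b)

instance : LocallyConnectedSpace Y := by
  have hδ : ∀ x : Y, ∃ δ > 0, ∀ i, x.1 i ≠ 0 → δ ≤ x.1 i := by
    intro x
    have hne : (Finset.univ : Finset (Fin 5)).Nonempty := Finset.univ_nonempty
    refine ⟨Finset.univ.inf' hne (fun i => if x.1 i = 0 then 1 else x.1 i), ?_, ?_⟩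
    · rw [gt_iff_lt, Finset.lt_inf'_iff]
      intro i _
      split_ifs with h
      · exact one_pos
      · exact lt_of_le_of_ne (x.2.1 i) (Ne.symm h)
    · intro i hi
      have := Finset.inf'_le (s := Finset.univ) (fun i => if x.1 i = 0 then 1 else x.1 i)
        (Finset.mem_univ i)
      simpa only [if_neg hi] using this
  choose δ hδ0 hδ using hδ
  refine locallyConnectedSpace_of_connected_bases (fun x ε => Metric.ball x ε)
    (fun x ε => 0 < ε ∧ ε ≤ δ x) ?_ ?_
  · intro x
    refine Metric.nhds_basis_ball.to_hasBasis ?_ ?_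
    · intro ε hε
      exact ⟨min ε (δ x), ⟨lt_min hε (hδ0 x), min_le_right _ _⟩, Metric.ball_subset_ball (min_le_left _ _)⟩
    · intro ε hε
      exact ⟨ε, hε.1, subset_rfl⟩
  · intro x ε hε
    apply isPreconnected_of_forall x
    intro z hz
    have hsub : segment ℝ x.1 z.1 ⊆ YS := by
      apply segment_sub _ _ x.2 z.2
      intro i hi h0
      have h1 : dist (z.1 i) (x.1 i) ≤ dist z.1 x.1 := dist_le_pi_dist _ _ _
      have h2 : dist z.1 x.1 < ε := hz
      have h3 := hδ x i hi
      rw [h0, Real.dist_eq, zero_sub, abs_neg, abs_of_nonneg (x.2.1 i)] at h1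
      linarith [hε.2]
    refine ⟨{w | w.1 ∈ segment ℝ x.1 z.1}, ?_, left_mem_segment ℝ _ _, right_mem_segment ℝ _ _, ?_⟩
    · intro w hw
      have hw' : w.1 ∈ Metric.ball x.1 ε :=
        (convex_ball x.1 ε).segment_subset (Metric.mem_ball_self hε.1) hz hw
      exact hw'
    · rw [preconn_iff]
      have : Subtype.val '' {w : Y | w.1 ∈ segment ℝ x.1 z.1} = segment ℝ x.1 z.1 := by
        ext y
        constructor
        · rintro ⟨w, hw, rfl⟩; exact hw
        · intro hy; exact ⟨⟨y, hsub hy⟩, hy, rfl⟩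
      rw [this]
      exact (convex_segment _ _).isPreconnected

lemma disjoint_E (a b c d : Fin 5) (h1 : a ≠ c) (h2 : a ≠ d) (h3 : b ≠ c) (h4 : b ≠ d) :
    Disjoint (E a b) (E c d) := by
  rw [Set.disjoint_left]
  rintro x hx hx'
  have h0 : ∀ i, x.1 i = 0 := by
    intro i
    by_cases hia : i = a
    · subst hia; exact hx'.2.2 i h1 h2
    · by_cases hib : i = b
      · subst hib; exact hx'.2.2 i h3 h4
      · exact hx.2.2 i hia hib
  have := hx.2.1
  simp [h0] at this

/-- The two coordinates of a point of an open edge. -/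
lemma edge_sum (x : Y) (a b : Fin 5) (hab : a ≠ b) (ha : 0 < x.1 a) (hb : 0 < x.1 b) :
    x.1 a + x.1 b = 1 ∧ ∀ i, i ≠ a → i ≠ b → x.1 i = 0 := by
  obtain ⟨h1, h2, c, d, h3⟩ := x.2
  have hac : a = c ∨ a = d := by
    by_contra h
    push Not at h
    exact ha.ne' (h3 a h.1 h.2)
  have hbc : b = c ∨ b = d := by
    by_contra h
    push Not at h
    exact hb.ne' (h3 b h.1 h.2)
  have h4 : ∀ i, i ≠ a → i ≠ b → x.1 i = 0 := by
    intro i hia hib
    apply h3
    · rcases hac with h | h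
      · rw [← h]; exact hia
      · rcases hbc with h' | h'
        · rw [← h']; exact hib
        · exact absurd (h.trans h'.symm) hab
    · rcases hac with h | h
      · rcases hbc with h' | h'
        · exact absurd (h.trans h'.symm) hab
        · rw [← h']; exact hib
      · rw [← h]; exact hia
  refine ⟨?_, h4⟩
  have h5 : ∑ i, x.1 i = ∑ i ∈ {a, b}, x.1 i := by
    symm
    apply Finset.sum_subset (Finset.subset_univ _)
    intro i _ hi
    simp only [Finset.mem_insert, Finset.mem_singleton, not_or] at hi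
    exact h4 i hi.1 hi.2
  rw [Finset.sum_pair hab] at h5
  rw [← h5, h2]

lemma edge_ext (x y : Y) (a b : Fin 5) (hab : a ≠ b) (ha : 0 < x.1 a) (hb : 0 < x.1 b)
    (ha' : 0 < y.1 a) (hb' : 0 < y.1 b) (h : x.1 a = y.1 a) : x = y := by
  obtain ⟨h1, h2⟩ := edge_sum x a b hab ha hb
  obtain ⟨h3, h4⟩ := edge_sum y a b hab ha' hb'
  ext i
  by_cases hia : i = a
  · subst hia; exact h
  · by_cases hib : i = b
    · subst hib; linarith
    · rw [h2 i hia hib, h4 i hia hib]

/-- A nondegenerate connected subset has nonempty interior. -/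
lemma interior_nonempty (L : Set Y) (hL : IsConnected L) (hn : L.Nontrivial) :
    (interior L).Nonempty := by
  by_contra hint
  have hsub : ∀ U : Set Y, IsOpen U → U.Nonempty → ∃ r ∈ U, r ∉ L := by
    intro U hU hne
    by_contra h
    push Not at h
    exact hint (hne.mono (interior_maximal h hU))
  -- a point of an open edge
  have hp : ∃ p ∈ L, ∃ a b : Fin 5, a ≠ b ∧ 0 < p.1 a ∧ 0 < p.1 b := by
    by_contra hcon
    push Not at hcon
    have hfin : L.Finite := by
      apply (Set.finite_range vt).subset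
      intro p hp
      have hex : ∃ a, 0 < p.1 a := by
        by_contra h
        push Not at h
        have h0 : ∀ i, p.1 i = 0 := fun i => le_antisymm (h i) (p.2.1 i)
        have := p.2.2.1
        simp [h0] at this
      obtain ⟨a, ha⟩ := hex
      have h0 : ∀ i, i ≠ a → p.1 i = 0 := fun i hi =>
        le_antisymm (hcon p hp a i (Ne.symm hi) ha) (p.2.1 i)
      refine ⟨a, ?_⟩
      ext i
      simp only [vt, vtS]
      by_cases hi : i = a
      · subst hi
        have := p.2.2.1
        rw [Finset.sum_eq_single i (fun j _ hj => h0 j hj) (by simp)] at this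
        simp [this]
      · simp [hi, h0 i hi]
    exact (hL.isPreconnected.infinite_of_nontrivial hn) hfin
  obtain ⟨p, hpL, a, b, hab, hpa, hpb⟩ := hp
  obtain ⟨hps, -⟩ := edge_sum p a b hab hpa hpb
  obtain ⟨q, hqL, hqp⟩ := hn.exists_ne p
  -- a small neighbourhood of `p` not containing `q`
  obtain ⟨δ, hδ0, hδa, hδb, hδq⟩ : ∃ δ > 0, δ ≤ p.1 a ∧ δ ≤ p.1 b ∧
      ¬ (0 < q.1 a ∧ 0 < q.1 b ∧ |q.1 a - p.1 a| < δ) := by
    by_cases hq : 0 < q.1 a ∧ 0 < q.1 b
    · have hne : q.1 a ≠ p.1 a := fun h => hqp (edge_ext q p a b hab hq.1 hq.2 hpa hpb h)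
      have h0 : 0 < |q.1 a - p.1 a| := abs_pos.2 (sub_ne_zero.2 hne)
      refine ⟨min (|q.1 a - p.1 a|) (min (p.1 a) (p.1 b)), lt_min h0 (lt_min hpa hpb),
        (min_le_right _ _).trans (min_le_left _ _), (min_le_right _ _).trans (min_le_right _ _), ?_⟩
      rintro ⟨-, -, h⟩
      exact absurd (h.trans_le (min_le_left _ _)) (lt_irrefl _)
    · refine ⟨min (p.1 a) (p.1 b), lt_min hpa hpb, min_le_left _ _, min_le_right _ _, ?_⟩
      rintro ⟨h1, h2, -⟩
      exact hq ⟨h1, h2⟩
  -- points of the edge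
  have hpt : ∀ t : ℝ, 0 < t → t < 1 → ∃ x : Y, x.1 a = t ∧ x.1 b = 1 - t := by
    intro t ht0 ht1
    have hx : (fun i => if i = a then t else if i = b then 1 - t else 0 : Fin 5 → ℝ) ∈ ES a b := by
      refine ⟨fun i => ?_, ?_, fun i hia hib => by simp [hia, hib]⟩
      · simp only
        split_ifs
        · exact ht0.le
        · linarith
        · exact le_rfl
      · have h5 : ∑ i, (if i = a then t else if i = b then 1 - t else 0 : ℝ) =
            ∑ i ∈ {a, b}, (if i = a then t else if i = b then 1 - t else 0 : ℝ) := by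
          symm
          apply Finset.sum_subset (Finset.subset_univ _)
          intro i _ hi
          simp only [Finset.mem_insert, Finset.mem_singleton, not_or] at hi
          simp [hi.1, hi.2]
        rw [h5, Finset.sum_pair hab]
        simp [hab.symm]
    refine ⟨⟨_, ES_sub a b hx⟩, ?_, ?_⟩
    · simp
    · simp [hab.symm]
  have hca : Continuous fun x : Y => x.1 a := (continuous_apply a).comp continuous_subtype_val
  have hcb : Continuous fun x : Y => x.1 b := (continuous_apply b).comp continuous_subtype_val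
  have hopen : ∀ s t : ℝ, IsOpen {x : Y | 0 < x.1 b ∧ s < x.1 a ∧ x.1 a < t} := by
    intro s t
    exact (isOpen_lt continuous_const hcb).inter
      ((isOpen_lt continuous_const hca).inter (isOpen_lt hca continuous_const))
  obtain ⟨r1, ⟨hr1b, hr1a, hr1t⟩, hr1L⟩ := hsub _ (hopen (p.1 a - δ) (p.1 a)) (by
    obtain ⟨x, hx1, hx2⟩ := hpt (p.1 a - δ / 2) (by linarith) (by linarith)
    exact ⟨x, by rw [hx2]; linarith, by rw [hx1]; linarith, by rw [hx1]; linarith⟩)
  obtain ⟨r2, ⟨hr2b, hr2a, hr2t⟩, hr2L⟩ := hsub _ (hopen (p.1 a) (p.1 a + δ)) (by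
    obtain ⟨x, hx1, hx2⟩ := hpt (p.1 a + δ / 2) (by linarith) (by linarith)
    exact ⟨x, by rw [hx2]; linarith, by rw [hx1]; linarith, by rw [hx1]; linarith⟩)
  have hr1pos : 0 < r1.1 a := by linarith
  have hr2pos : 0 < r2.1 a := by linarith
  obtain ⟨hr2s, -⟩ := edge_sum r2 a b hab hr2pos hr2b
  -- the separation
  set A : Set Y := {x | 0 < x.1 b ∧ r1.1 a < x.1 a ∧ x.1 a < r2.1 a} with hA
  set B : Set Y := {x | x.1 a + x.1 b = 1 ∧ r1.1 a ≤ x.1 a ∧ x.1 a ≤ r2.1 a}ᶜ with hB
  have hBo : IsOpen B := by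
    rw [hB, isOpen_compl_iff]
    exact (isClosed_eq (hca.add hcb) continuous_const).inter
      ((isClosed_le continuous_const hca).inter (isClosed_le hca continuous_const))
  have hcov : L ⊆ A ∪ B := by
    intro x hx
    by_cases hxB : x ∈ B
    · exact Or.inr hxB
    · left
      have hxB' : x.1 a + x.1 b = 1 ∧ r1.1 a ≤ x.1 a ∧ x.1 a ≤ r2.1 a := by
        by_contra h
        exact hxB h
      obtain ⟨h1, h2, h3⟩ := hxB'
      have hxa : 0 < x.1 a := by linarith
      have hxb : 0 < x.1 b := by linarith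
      refine ⟨hxb, lt_of_le_of_ne h2 ?_, lt_of_le_of_ne h3 ?_⟩
      · intro h
        exact hr1L ((edge_ext r1 x a b hab hr1pos hr1b hxa hxb h) ▸ hx)
      · intro h
        exact hr2L ((edge_ext x r2 a b hab hxa hxb hr2pos hr2b h) ▸ hx)
  have hpA : (L ∩ A).Nonempty := ⟨p, hpL, hpb, hr1t, hr2a⟩
  have hqB : (L ∩ B).Nonempty := by
    refine ⟨q, hqL, ?_⟩
    rintro ⟨h1, h2, h3⟩
    apply hδq
    refine ⟨by linarith, by linarith, ?_⟩
    rw [abs_lt]
    constructor <;> linarith
  obtain ⟨x, hxL, hxA, hxB⟩ := hL.isPreconnected A B (hopen _ _) hBo hcov hpA hqB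
  apply hxB
  have hxa : 0 < x.1 a := by linarith [hxA.2.1]
  exact ⟨(edge_sum x a b hab hxa hxA.1).1, hxA.2.1.le, hxA.2.2.le⟩

end Pool.Agent.Y267.KF
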