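import Mathlib

/-!
# A uniformly pathwise connected continuum that is not uniformly arcwise connected

`Y n` is the union of an oscillating arc `J n` from `b` to a point near `a` and of the segments from
`a` to the points of `J n` with first coordinate `-1`.
-/

set_option autoImplicit false

namespace Pool.Agent.Y267.UP

open Set

/-- The ambient space. -/
abbrev E3 := ℝ × ℝ × ℝ

/-- The oscillating arc. -/
noncomputable def Jf (n : ℕ) (w : ℝ) : E3 :=
  (Real.cos (Real.pi * ((2 * n + 1) * w)), w / (n + 1), w / (n + 1) ^ 2)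

/-- The parameters of the points of the oscillating arc with first coordinate `-1`. -/
noncomputable def wk (n k : ℕ) : ℝ := (2 * k + 1) / (2 * n + 1)

/-- The segment from `a` to the point of the oscillating arc with parameter `wk n k`. -/
noncomputable def Ef (n k : ℕ) (s : ℝ) : E3 :=
  (-2 + s, s * wk n k / (n + 1), s * wk n k / (n + 1) ^ 2)

def Ed (n k : ℕ) : Set E3 := Ef n k '' Icc 0 1

def Y (n : ℕ) : Set E3 := Jf n '' Icc 0 1 ∪ ⋃ k ∈ Finset.range (n + 1), Ed n k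

def L : Set E3 := (fun x : ℝ => ((x, 0, 0) : E3)) '' Icc (-2) 1

def XS (S : Set ℕ) : Set E3 := L ∪ ⋃ n ∈ S, Y n

lemma continuous_Jf (n : ℕ) : Continuous (Jf n) := by
  unfold Jf
  fun_prop

lemma continuous_Ef (n k : ℕ) : Continuous (Ef n k) := by
  unfold Ef
  fun_prop

lemma isClosed_Jf (n : ℕ) (u v : ℝ) : IsClosed (Jf n '' Icc u v) :=
  (isCompact_Icc.image (continuous_Jf n)).isClosed

lemma isClosed_Ed (n k : ℕ) : IsClosed (Ed n k) :=
  (isCompact_Icc.image (continuous_Ef n k)).isClosed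

lemma isClosed_Y (n : ℕ) : IsClosed (Y n) := by
  unfold Y
  refine (isClosed_Jf n 0 1).union ?_
  exact (Finset.range (n + 1)).finite_toSet.isClosed_biUnion (fun k _ => isClosed_Ed n k)

lemma isClosed_L : IsClosed L := by
  unfold L
  exact (isCompact_Icc.image (by fun_prop)).isClosed

/-- A box. -/
def C (N : ℕ) : Set E3 := Icc (-2) 1 ×ˢ (Icc 0 (1 / ((N : ℝ) + 1)) ×ˢ Icc 0 (1 / ((N : ℝ) + 1)))

lemma isClosed_C (N : ℕ) : IsClosed (C N) :=
  isClosed_Icc.prod (isClosed_Icc.prod isClosed_Icc)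

lemma wk_pos (n k : ℕ) : 0 < wk n k := by unfold wk; positivity

lemma wk_le (n k : ℕ) (hk : k ≤ n) : wk n k ≤ 1 := by
  unfold wk
  rw [div_le_one (by positivity)]
  have : (k : ℝ) ≤ n := by exact_mod_cast hk
  linarith

lemma mem_C_of (n N : ℕ) (hN : N ≤ n) (x w : ℝ) (hx : x ∈ Icc (-2 : ℝ) 1) (hw : w ∈ Icc (0 : ℝ) 1) :
    ((x, w / (n + 1), w / (n + 1) ^ 2) : E3) ∈ C N := by
  have h1 : ((N : ℝ) + 1) ≤ (n : ℝ) + 1 := by exact_mod_cast Nat.succ_le_succ hN
  have h0 : (0 : ℝ) < (N : ℝ) + 1 := by positivity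
  have h0' : (0 : ℝ) < (n : ℝ) + 1 := by positivity
  have h2 : w / ((n : ℝ) + 1) ≤ 1 / ((N : ℝ) + 1) :=
    div_le_div₀ zero_le_one hw.2 h0 h1
  have h3 : w / ((n : ℝ) + 1) ^ 2 ≤ w / ((n : ℝ) + 1) := by
    apply div_le_div_of_nonneg_left hw.1 h0'
    nlinarith [show (0 : ℝ) ≤ n from by positivity]
  refine ⟨hx, ⟨?_, h2⟩, ⟨?_, h3.trans h2⟩⟩
  · exact div_nonneg hw.1 h0'.le
  · exact div_nonneg hw.1 (by positivity)

lemma Y_sub_C (n N : ℕ) (hN : N ≤ n) : Y n ⊆ C N := by
  rintro p (⟨w, hw, rfl⟩ | hp)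
  · refine mem_C_of n N hN _ w ⟨?_, ?_⟩ hw
    · linarith [Real.neg_one_le_cos (Real.pi * ((2 * n + 1) * w))]
    · exact Real.cos_le_one _
  · simp only [mem_iUnion] at hp
    obtain ⟨k, hk, s, hs, rfl⟩ := hp
    have hk' : k ≤ n := by simpa [Nat.lt_succ_iff] using hk
    refine mem_C_of n N hN _ (s * wk n k) ⟨?_, ?_⟩ ⟨?_, ?_⟩
    · linarith [hs.1]
    · linarith [hs.2]
    · exact mul_nonneg hs.1 (wk_pos n k).le
    · exact mul_le_one₀ hs.2 (wk_pos n k).le (wk_le n k hk')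

lemma L_sub_C (N : ℕ) : L ⊆ C N := by
  rintro p ⟨x, hx, rfl⟩
  have : (0 : ℝ) ≤ 1 / ((N : ℝ) + 1) := by positivity
  exact ⟨hx, ⟨le_rfl, this⟩, ⟨le_rfl, this⟩⟩

lemma XS_eq (S : Set ℕ) : XS S = ⋂ N : ℕ, ((⋃ n ∈ S ∩ (Finset.range N : Set ℕ), Y n) ∪ C N) := by
  ext p
  simp only [mem_iInter]
  constructor
  · rintro (hp | hp) N
    · exact Or.inr (L_sub_C N hp)
    · simp only [mem_iUnion] at hp
      obtain ⟨n, hn, hp⟩ := hp
      by_cases h : n < N
      · left
        simp only [mem_iUnion]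
        exact ⟨n, ⟨hn, by simpa using h⟩, hp⟩
      · exact Or.inr (Y_sub_C n N (not_lt.1 h) hp)
  · intro h
    by_cases hY : ∃ n ∈ S, p ∈ Y n
    · obtain ⟨n, hn, hp⟩ := hY
      right
      simp only [mem_iUnion]
      exact ⟨n, hn, hp⟩
    · left
      have hC : ∀ N, p ∈ C N := by
        intro N
        rcases h N with h | h
        · simp only [mem_iUnion] at h
          obtain ⟨n, hn, hp⟩ := h
          exact absurd ⟨n, hn.1, hp⟩ hY
        · exact h
      obtain ⟨x, y, z⟩ := p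
      have hy : y = 0 := by
        apply le_antisymm _ (hC 0).2.1.1
        apply le_of_forall_pos_le_add
        intro ε hε
        obtain ⟨N, hN⟩ := exists_nat_one_div_lt hε
        have := (hC N).2.1.2
        simp only at this
        linarith
      have hz : z = 0 := by
        apply le_antisymm _ (hC 0).2.2.1
        apply le_of_forall_pos_le_add
        intro ε hε
        obtain ⟨N, hN⟩ := exists_nat_one_div_lt hε
        have := (hC N).2.2.2
        simp only at this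
        linarith
      exact ⟨x, (hC 0).1, by rw [hy, hz]⟩

lemma isClosed_XS (S : Set ℕ) : IsClosed (XS S) := by
  rw [XS_eq]
  refine isClosed_iInter (fun N => ?_)
  refine IsClosed.union ?_ (isClosed_C N)
  exact ((Finset.range N).finite_toSet.inter_of_right S).isClosed_biUnion
    (fun n _ => isClosed_Y n)

lemma isCompact_XS (S : Set ℕ) : IsCompact (XS S) := by
  have hC : IsCompact (C 0) := isCompact_Icc.prod (isCompact_Icc.prod isCompact_Icc)
  refine hC.of_isClosed_subset (isClosed_XS S) ?_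
  rw [XS_eq]
  intro p hp
  rcases mem_iInter.1 hp 0 with h | h
  · simp only [mem_iUnion] at h
    obtain ⟨n, hn, _⟩ := h
    simp at hn
  · exact h

/-- The continuum. -/
abbrev X : Type := {p : E3 // p ∈ XS univ}

instance : CompactSpace X := isCompact_iff_compactSpace.1 (isCompact_XS univ)

lemma mem_X_J (n : ℕ) (w : ℝ) (hw : w ∈ Icc (0 : ℝ) 1) : Jf n w ∈ XS univ := by
  right
  simp only [mem_iUnion]
  exact ⟨n, mem_univ _, Or.inl ⟨w, hw, rfl⟩⟩

lemma mem_X_E (n k : ℕ) (hk : k ≤ n) (s : ℝ) (hs : s ∈ Icc (0 : ℝ) 1) : Ef n k s ∈ XS univ := by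
  right
  simp only [mem_iUnion]
  refine ⟨n, mem_univ _, Or.inr ?_⟩
  simp only [mem_iUnion]
  exact ⟨k, by simpa [Nat.lt_succ_iff] using hk, ⟨s, hs, rfl⟩⟩

lemma mem_X_L (x : ℝ) (hx : x ∈ Icc (-2 : ℝ) 1) : ((x, 0, 0) : E3) ∈ XS univ :=
  Or.inl ⟨x, hx, rfl⟩

/-- The first point. -/
def ptA : X := ⟨(-2, 0, 0), mem_X_L _ (by norm_num)⟩

/-- The second point. -/
def ptB : X := ⟨(1, 0, 0), mem_X_L _ (by norm_num)⟩

end Pool.Agent.Y267.UP
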