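import Pool.Agent.Y267.UP1

/-!
# A uniform family of paths covering the continuum
-/

set_option autoImplicit false

namespace Pool.Agent.Y267.UP

open Set

section general

variable {Z : Type} [MetricSpace Z]

/-- Points joined by a `K`-Lipschitz path. -/
def Conn (K : NNReal) (p q : Z) : Prop := ∃ c : Path p q, LipschitzWith K c

lemma lip_symm {K : NNReal} {p q : Z} (c : Path p q) (h : LipschitzWith K c) :
    LipschitzWith K c.symm := by
  apply LipschitzWith.of_dist_le_mul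
  intro s t
  have := h.dist_le_mul (unitInterval.symm s) (unitInterval.symm t)
  simp only [Path.symm_apply, Function.comp]
  refine this.trans (le_of_eq ?_)
  congr 1
  rw [Subtype.dist_eq, Subtype.dist_eq, Real.dist_eq, Real.dist_eq]
  simp only [unitInterval.coe_symm_eq]
  rw [show (1 - (s : ℝ) - (1 - (t : ℝ))) = -((s : ℝ) - t) by ring, abs_neg]

lemma lip_trans {K : NNReal} {p q r : Z} (c : Path p q) (d : Path q r) (hc : LipschitzWith K c)
    (hd : LipschitzWith K d) : LipschitzWith (2 * K) (c.trans d) := by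
  have key : ∀ s t : unitInterval, (s : ℝ) ≤ t →
      dist ((c.trans d) s) ((c.trans d) t) ≤ 2 * K * ((t : ℝ) - s) := by
    intro s t hst
    rw [Path.trans_apply, Path.trans_apply]
    by_cases hs : (s : ℝ) ≤ 1 / 2
    · by_cases ht : (t : ℝ) ≤ 1 / 2
      · rw [dif_pos hs, dif_pos ht]
        refine (hc.dist_le_mul _ _).trans (le_of_eq ?_)
        rw [Subtype.dist_eq, Real.dist_eq, abs_sub_comm, abs_of_nonneg (by linarith)]
        ring
      · rw [dif_pos hs, dif_neg ht]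
        push Not at ht
        have h1 := hc.dist_le_mul ⟨2 * s, (unitInterval.mul_pos_mem_iff zero_lt_two).2 ⟨s.2.1, hs⟩⟩ 1
        have h2 := hd.dist_le_mul 0 ⟨2 * t - 1, unitInterval.two_mul_sub_one_mem_iff.2 ⟨ht.le, t.2.2⟩⟩
        rw [Path.target] at h1
        rw [Path.source] at h2
        refine (dist_triangle _ q _).trans ((add_le_add h1 h2).trans (le_of_eq ?_))
        rw [Subtype.dist_eq, Subtype.dist_eq, Real.dist_eq, Real.dist_eq]
        have e1 : ((1 : unitInterval) : ℝ) = 1 := rfl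
        have e0 : ((0 : unitInterval) : ℝ) = 0 := rfl
        rw [e1, e0]
        rw [abs_sub_comm, abs_of_nonneg (by linarith), abs_sub_comm, abs_of_nonneg (by linarith)]
        ring
    · have ht : ¬ (t : ℝ) ≤ 1 / 2 := by
        push Not at hs ⊢
        linarith
      rw [dif_neg hs, dif_neg ht]
      refine (hd.dist_le_mul _ _).trans (le_of_eq ?_)
      rw [Subtype.dist_eq, Real.dist_eq, abs_sub_comm, abs_of_nonneg (by linarith)]
      ring
  apply LipschitzWith.of_dist_le_mul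
  intro s t
  rw [Subtype.dist_eq s t, Real.dist_eq]
  push_cast
  rcases le_total (s : ℝ) t with h | h
  · rw [abs_sub_comm, abs_of_nonneg (by linarith)]
    exact key s t h
  · rw [abs_of_nonneg (by linarith), dist_comm]
    exact key t s h

lemma Conn.symm {K : NNReal} {p q : Z} (h : Conn K p q) : Conn K q p := by
  obtain ⟨c, hc⟩ := h
  exact ⟨c.symm, lip_symm c hc⟩

lemma Conn.trans {K : NNReal} {p q r : Z} (h : Conn K p q) (h' : Conn K q r) :
    Conn (2 * K) p r := by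
  obtain ⟨c, hc⟩ := h
  obtain ⟨d, hd⟩ := h'
  exact ⟨c.trans d, lip_trans c d hc hd⟩

/-- The uniformity condition. -/
def Unif {a b : Z} (P : Set (Path a b)) : Prop :=
  ∀ ε : ℝ, ε > 0 → ∃ n : ℕ, ∀ p ∈ P, ∃ t : Fin (n + 1) → unitInterval,
    t 0 = 0 ∧ t (Fin.last n) = 1 ∧ StrictMono t ∧
    ∀ i : Fin n, Metric.diam (⇑p '' Set.Icc (t i.castSucc) (t i.succ)) ≤ ε

lemma unif_of_lip {a b : Z} (P : Set (Path a b)) (K : NNReal)
    (h : ∀ p ∈ P, LipschitzWith K p) : Unif P := by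
  intro ε hε
  obtain ⟨n, hn⟩ := exists_nat_gt ((K : ℝ) / ε)
  have hn0 : 0 < n := by
    have h0 : (0 : ℝ) ≤ K / ε := by positivity
    exact_mod_cast h0.trans_lt hn
  have hn0' : (0 : ℝ) < n := by exact_mod_cast hn0
  have hKn : (K : ℝ) * (1 / n) ≤ ε := by
    rw [div_lt_iff₀ hε] at hn
    rw [mul_one_div, div_le_iff₀ hn0']
    linarith
  refine ⟨n, fun p hp => ⟨fun i => ⟨(i : ℕ) / n, ?_, ?_⟩, ?_, ?_, ?_, ?_⟩⟩
  · positivity
  · rw [div_le_one hn0']
    exact_mod_cast Nat.lt_succ_iff.1 i.2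
  · ext
    simp
  · ext
    simp [hn0'.ne']
  · intro i j hij
    have : ((i : ℕ) : ℝ) < ((j : ℕ) : ℝ) := by exact_mod_cast hij
    have h2 : ((i : ℕ) : ℝ) / n < ((j : ℕ) : ℝ) / n := by gcongr
    exact h2
  · intro i
    apply Metric.diam_le_of_forall_dist_le hε.le
    rintro _ ⟨s, hs, rfl⟩ _ ⟨t, ht, rfl⟩
    refine ((h p hp).dist_le_mul s t).trans (le_trans ?_ hKn)
    refine mul_le_mul_of_nonneg_left ?_ K.2
    rw [Subtype.dist_eq, Real.dist_eq]
    have hs1 : ((i : ℕ) : ℝ) / n ≤ s := hs.1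
    have ht1 : ((i : ℕ) : ℝ) / n ≤ t := ht.1
    have hs2 : (s : ℝ) ≤ (((i : ℕ) + 1 : ℕ) : ℝ) / n := hs.2
    have ht2 : (t : ℝ) ≤ (((i : ℕ) + 1 : ℕ) : ℝ) / n := ht.2
    push_cast at hs2 ht2
    rw [add_div] at hs2 ht2
    rw [abs_le]
    constructor <;> linarith

/-- If all points are joined to a base point by `K`-Lipschitz paths, then the space is uniformly
pathwise connected. -/
lemma unif_connected (K : NNReal) (o : Z) (h : ∀ z : Z, Conn K o z) (a b : Z) :
    ∃ P : Set (Path a b), Unif P ∧ (⋃ p ∈ P, Set.range ⇑p) = Set.univ := by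
  choose c hc using h
  let F : Z → Path a b := fun z => ((c a).symm.trans (c z)).trans ((c z).symm.trans (c b))
  refine ⟨Set.range F, ?_, ?_⟩
  · apply unif_of_lip _ (2 * (2 * K))
    rintro _ ⟨z, rfl⟩
    apply lip_trans
    · exact lip_trans _ _ (lip_symm _ (hc a)) (hc z)
    · exact lip_trans _ _ (lip_symm _ (hc z)) (hc b)
  · ext z
    simp only [mem_univ, iff_true, mem_iUnion]
    refine ⟨F z, ⟨z, rfl⟩, ?_⟩
    refine ⟨⟨1 / 2, by norm_num, by norm_num⟩, ?_⟩
    simp only [F]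
    rw [Path.trans_apply]
    simp

end general

/-- A path from a function with values in the ambient space. -/
lemma conn_of (f : ℝ → E3) (K : NNReal)
    (hf : ∀ s ∈ Icc (0 : ℝ) 1, ∀ t ∈ Icc (0 : ℝ) 1, dist (f s) (f t) ≤ K * |s - t|)
    (hX : ∀ s ∈ Icc (0 : ℝ) 1, f s ∈ XS univ) (p q : X) (hp : p.1 = f 0) (hq : q.1 = f 1) :
    Conn K p q := by
  have hlip : LipschitzWith K (fun t : unitInterval => (⟨f t, hX t t.2⟩ : X)) := by
    apply LipschitzWith.of_dist_le_mul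
    intro s t
    rw [Subtype.dist_eq, Subtype.dist_eq, Real.dist_eq]
    exact hf s s.2 t t.2
  refine ⟨⟨⟨fun t => ⟨f t, hX t t.2⟩, hlip.continuous⟩, ?_, ?_⟩, hlip⟩
  · ext1
    simp [hp]
  · ext1
    simp [hq]

lemma dist_E3 (x y z x' y' z' c : ℝ) (h1 : |x - x'| ≤ c) (h2 : |y - y'| ≤ c) (h3 : |z - z'| ≤ c) :
    dist ((x, y, z) : E3) (x', y', z') ≤ c := by
  rw [Prod.dist_eq, Prod.dist_eq]
  simp only [Real.dist_eq]
  exact max_le h1 (max_le h2 h3)

lemma frac_le (n : ℕ) (u v c : ℝ) (h : |u - v| ≤ c) :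
    |u / ((n : ℝ) + 1) - v / (n + 1)| ≤ c ∧ |u / ((n : ℝ) + 1) ^ 2 - v / (n + 1) ^ 2| ≤ c := by
  have h0 : (1 : ℝ) ≤ (n : ℝ) + 1 := by
    have : (0 : ℝ) ≤ n := by positivity
    linarith
  have h1 : (1 : ℝ) ≤ ((n : ℝ) + 1) ^ 2 := by nlinarith
  constructor
  · rw [← sub_div, abs_div, abs_of_pos (by linarith : (0 : ℝ) < (n : ℝ) + 1)]
    exact (div_le_self (abs_nonneg _) h0).trans h
  · rw [← sub_div, abs_div, abs_of_pos (by linarith : (0 : ℝ) < ((n : ℝ) + 1) ^ 2)]
    exact (div_le_self (abs_nonneg _) h1).trans h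

lemma conn_L (x : ℝ) (hx : x ∈ Icc (-2 : ℝ) 1) : Conn 4 ptA ⟨(x, 0, 0), mem_X_L x hx⟩ := by
  refine conn_of (fun s => (-2 + s * (x + 2), 0, 0)) 4 ?_ ?_ _ _ ?_ ?_
  · intro s hs t ht
    apply dist_E3
    · rw [show -2 + s * (x + 2) - (-2 + t * (x + 2)) = (x + 2) * (s - t) by ring, abs_mul]
      refine mul_le_mul_of_nonneg_right ?_ (abs_nonneg _)
      rw [abs_of_nonneg (by linarith [hx.1])]
      have := hx.2
      norm_num
      linarith
    · simp
    · simp
  · intro s hs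
    apply mem_X_L
    constructor
    · nlinarith [hs.1, hx.1]
    · nlinarith [hs.1, hs.2, hx.1, hx.2]
  · simp [ptA]
  · simp

lemma conn_E (n k : ℕ) (hk : k ≤ n) (s₀ : ℝ) (hs₀ : s₀ ∈ Icc (0 : ℝ) 1) :
    Conn 4 ptA ⟨Ef n k s₀, mem_X_E n k hk s₀ hs₀⟩ := by
  refine conn_of (fun s => Ef n k (s * s₀)) 4 ?_ ?_ _ _ ?_ ?_
  · intro s hs t ht
    have hw := wk_le n k hk
    have hw0 := (wk_pos n k).le
    have e1 : |s * s₀ - t * s₀| ≤ |s - t| := by
      rw [← sub_mul, abs_mul, abs_of_nonneg hs₀.1]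
      exact mul_le_of_le_one_right (abs_nonneg _) hs₀.2
    have e2 : |s * s₀ * wk n k - t * s₀ * wk n k| ≤ |s - t| := by
      rw [← sub_mul, abs_mul, abs_of_nonneg hw0]
      exact (mul_le_of_le_one_right (abs_nonneg _) hw).trans e1
    have e3 : |s - t| ≤ (4 : NNReal) * |s - t| := by
      have : (0 : ℝ) ≤ |s - t| := abs_nonneg _
      push_cast
      linarith
    have e4 := frac_le n _ _ _ e2
    unfold Ef
    apply dist_E3
    · rw [show -2 + s * s₀ - (-2 + t * s₀) = s * s₀ - t * s₀ by ring]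
      exact e1.trans e3
    · exact e4.1.trans e3
    · exact e4.2.trans e3
  · intro s hs
    apply mem_X_E n k hk
    exact ⟨mul_nonneg hs.1 hs₀.1, mul_le_one₀ hs.2 hs₀.1 hs₀.2⟩
  · simp [ptA, Ef]
  · simp

lemma Ef_one (n k : ℕ) : Ef n k 1 = Jf n (wk n k) := by
  have h : (2 * (n : ℝ) + 1) * wk n k = 2 * k + 1 := by
    unfold wk
    field_simp
  unfold Ef Jf
  rw [h]
  have : Real.cos (Real.pi * (2 * k + 1)) = -1 := by
    rw [show Real.pi * (2 * (k : ℝ) + 1) = Real.pi + k * (2 * Real.pi) by ring,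
      Real.cos_add_nat_mul_two_pi, Real.cos_pi]
  rw [this]
  norm_num

lemma exists_wk (n : ℕ) (w : ℝ) (hw : w ∈ Icc (0 : ℝ) 1) :
    ∃ k ≤ n, |w - wk n k| * (2 * n + 1) ≤ 1 := by
  have hn : (0 : ℝ) < 2 * n + 1 := by positivity
  set k := ⌊w * (2 * n + 1) / 2⌋₊ with hk
  have h0 : 0 ≤ w * (2 * n + 1) / 2 := by
    have := hw.1
    positivity
  have h1 : (k : ℝ) ≤ w * (2 * n + 1) / 2 := Nat.floor_le h0
  have h2 : w * (2 * n + 1) / 2 < k + 1 := Nat.lt_floor_add_one _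
  have h3 : w * (2 * n + 1) ≤ 2 * n + 1 := mul_le_of_le_one_left hn.le hw.2
  refine ⟨k, ?_, ?_⟩
  · have : (k : ℝ) < n + 1 := by linarith
    exact Nat.lt_succ_iff.1 (by exact_mod_cast this)
  · have e : |w - wk n k| * (2 * n + 1) = |(w - wk n k) * (2 * n + 1)| := by
      rw [abs_mul, abs_of_pos hn]
    rw [e, sub_mul]
    have : wk n k * (2 * n + 1) = 2 * k + 1 := by
      unfold wk
      field_simp
    rw [this, abs_le]
    constructor <;> linarith

lemma conn_J' (n : ℕ) (w v : ℝ) (hw : w ∈ Icc (0 : ℝ) 1) (hv : v ∈ Icc (0 : ℝ) 1)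
    (h : |w - v| * (2 * n + 1) ≤ 1) :
    Conn 4 (⟨Jf n v, mem_X_J n v hv⟩ : X) ⟨Jf n w, mem_X_J n w hw⟩ := by
  have hpi := Real.pi_le_four
  have hpi0 := Real.pi_pos
  refine conn_of (fun s => Jf n (v + s * (w - v))) 4 ?_ ?_ _ _ ?_ ?_
  · intro s hs t ht
    have e0 : |w - v| ≤ 1 := by
      have : |w - v| * 1 ≤ |w - v| * (2 * n + 1) := by
        refine mul_le_mul_of_nonneg_left ?_ (abs_nonneg _)
        have : (0 : ℝ) ≤ n := by positivity
        linarith
      linarith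
    have e1 : |v + s * (w - v) - (v + t * (w - v))| ≤ |s - t| := by
      rw [show v + s * (w - v) - (v + t * (w - v)) = (s - t) * (w - v) by ring, abs_mul]
      exact mul_le_of_le_one_right (abs_nonneg _) e0
    have e3 : |s - t| ≤ (4 : NNReal) * |s - t| := by
      have : (0 : ℝ) ≤ |s - t| := abs_nonneg _
      push_cast
      linarith
    have e4 := frac_le n _ _ _ e1
    unfold Jf
    apply dist_E3
    · refine (Real.abs_cos_sub_cos_le _ _).trans ?_
      rw [← mul_sub, ← mul_sub, show v + s * (w - v) - (v + t * (w - v)) = (s - t) * (w - v) by ring,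
        abs_mul, abs_mul, abs_mul, abs_of_pos hpi0, abs_of_pos (by positivity : (0 : ℝ) < 2 * n + 1)]
      have : Real.pi * ((2 * n + 1) * (|s - t| * |w - v|)) = Real.pi * (|s - t| * (|w - v| * (2 * n + 1))) := by
        ring
      rw [this]
      have h5 : |s - t| * (|w - v| * (2 * n + 1)) ≤ |s - t| := mul_le_of_le_one_right (abs_nonneg _) h
      calc Real.pi * (|s - t| * (|w - v| * (2 * n + 1))) ≤ Real.pi * |s - t| :=
            mul_le_mul_of_nonneg_left h5 hpi0.le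
        _ ≤ 4 * |s - t| := mul_le_mul_of_nonneg_right hpi (abs_nonneg _)
    · exact e4.1.trans e3
    · exact e4.2.trans e3
  · intro s hs
    apply mem_X_J
    constructor
    · nlinarith [hs.1, hs.2, hv.1, hw.1]
    · nlinarith [hs.1, hs.2, hv.2, hw.2]
  · simp
  · simp

lemma conn_J (n : ℕ) (w : ℝ) (hw : w ∈ Icc (0 : ℝ) 1) :
    Conn 8 ptA ⟨Jf n w, mem_X_J n w hw⟩ := by
  obtain ⟨k, hk, h⟩ := exists_wk n w hw
  have hv : wk n k ∈ Icc (0 : ℝ) 1 := ⟨(wk_pos n k).le, wk_le n k hk⟩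
  have h1 := conn_E n k hk 1 (by norm_num)
  have h2 := conn_J' n w (wk n k) hw hv h
  have e : (⟨Ef n k 1, mem_X_E n k hk 1 (by norm_num)⟩ : X) = ⟨Jf n (wk n k), mem_X_J n _ hv⟩ :=
    Subtype.ext (Ef_one n k)
  rw [e] at h1
  have h3 := h1.trans h2
  norm_num at h3
  exact h3

lemma Conn.mono {Z : Type} [MetricSpace Z] {K K' : NNReal} {p q : Z} (h : Conn K p q) (hK : K ≤ K') :
    Conn K' p q := by
  obtain ⟨c, hc⟩ := h
  exact ⟨c, hc.weaken hK⟩

lemma conn_all (z : X) : Conn 8 ptA z := by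
  obtain ⟨z, hz⟩ := z
  have h48 : (4 : NNReal) ≤ 8 := by norm_num
  rcases hz with ⟨x, hx, rfl⟩ | hz
  · exact (conn_L x hx).mono h48
  · simp only [mem_iUnion] at hz
    obtain ⟨n, _, hz⟩ := hz
    rcases hz with ⟨w, hw, rfl⟩ | hz
    · exact conn_J n w hw
    · simp only [mem_iUnion] at hz
      obtain ⟨k, hk, s, hs, rfl⟩ := hz
      have hk' : k ≤ n := by simpa [Nat.lt_succ_iff] using hk
      exact (conn_E n k hk' s hs).mono h48

instance : ConnectedSpace X := by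
  have : PathConnectedSpace X := by
    refine ⟨⟨ptA⟩, ?_⟩
    intro p q
    obtain ⟨c, _⟩ := conn_all p
    obtain ⟨d, _⟩ := conn_all q
    exact ⟨c.symm.trans d⟩
  infer_instance

end Pool.Agent.Y267.UP
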